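import Mathlib

set_option autoImplicit false

namespace Pool.Agent.MPcdddd3

open MvPolynomial Finset

/-- the coefficient of `t ^ k` in `(1 - t) ^ (-τ)` -/
noncomputable def w (τ : ℝ) (k : ℕ) : ℝ := (∏ i ∈ range k, (τ + i)) / k.factorial

theorem w_zero (τ : ℝ) : w τ 0 = 1 := by simp [w]

theorem w_succ (τ : ℝ) (k : ℕ) : ((k : ℝ) + 1) * w τ (k + 1) = (τ + k) * w τ k := by
  unfold w
  rw [prod_range_succ, Nat.factorial_succ]
  have h1 : (k.factorial : ℝ) ≠ 0 := by positivity
  have h2 : ((k : ℝ) + 1) ≠ 0 := by positivity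
  push_cast
  field_simp

variable {n : ℕ}

/-- homogeneous polynomial with prescribed coefficients -/
noncomputable def pol (r : ℕ) (φ : (Fin n →₀ ℕ) → ℝ) : MvPolynomial (Fin n) ℝ :=
  ∑ m ∈ (Finset.univ : Finset (Fin n)).finsuppAntidiag r, monomial m (φ m)

theorem coeff_pol (r : ℕ) (φ : (Fin n →₀ ℕ) → ℝ) (m : Fin n →₀ ℕ) :
    coeff m (pol r φ) = if ∑ i, m i = r then φ m else 0 := by
  unfold pol
  rw [coeff_sum]
  simp only [coeff_monomial]
  rw [Finset.sum_ite_eq' ]
  simp

/-- product of the weights -/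
noncomputable def cw (τ : ℝ) (m : Fin n →₀ ℕ) : ℝ := ∏ i, w τ (m i)

/-- the one-row functions `g_r` -/
noncomputable def g (τ : ℝ) (r : ℕ) : MvPolynomial (Fin n) ℝ := pol r (cw τ)

theorem coeff_X_mul_pderiv (i : Fin n) (f : MvPolynomial (Fin n) ℝ) (m : Fin n →₀ ℕ) :
    coeff m (X i * pderiv i f) = (m i : ℝ) * coeff m f := by
  induction f using MvPolynomial.induction_on' with
  | monomial u a =>
    rw [X_mul_pderiv_monomial, coeff_smul, coeff_monomial]
    split_ifs with h
    · subst h; simp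
    · simp
  | add p q hp hq =>
    rw [map_add, mul_add, coeff_add, hp, hq, coeff_add]; ring

theorem X_sq_mul_pderiv_pderiv (i : Fin n) (f : MvPolynomial (Fin n) ℝ) :
    X i ^ 2 * pderiv i (pderiv i f)
      = X i * pderiv i (X i * pderiv i f) - X i * pderiv i f := by
  rw [Derivation.leibniz, pderiv_X_self]
  simp only [smul_eq_mul]
  ring

theorem coeff_X_sq_mul (i : Fin n) (f : MvPolynomial (Fin n) ℝ) (m : Fin n →₀ ℕ) :
    coeff m (X i ^ 2 * pderiv i (pderiv i f)) = ((m i : ℝ) * (m i) - m i) * coeff m f := by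
  rw [X_sq_mul_pderiv_pderiv, coeff_sub, coeff_X_mul_pderiv, coeff_X_mul_pderiv]
  ring

/-- lower the `i`-th exponent by one -/
noncomputable def dec (m : Fin n →₀ ℕ) (i : Fin n) : Fin n →₀ ℕ := m - Finsupp.single i 1

theorem dec_self (m : Fin n →₀ ℕ) (i : Fin n) : dec m i i = m i - 1 := by
  simp [dec]

theorem dec_ne (m : Fin n →₀ ℕ) {i j : Fin n} (h : i ≠ j) : dec m i j = m j := by
  simp [dec, h]

theorem coeff_X_mul_pol (r : ℕ) (φ : (Fin n →₀ ℕ) → ℝ) (i : Fin n) (m : Fin n →₀ ℕ) :
    coeff m (X i * pol r φ)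
      = if m i ≠ 0 ∧ ∑ l, m l = r + 1 then φ (dec m i) else 0 := by
  rw [coeff_X_mul']
  change (if i ∈ m.support then coeff (dec m i) (pol r φ) else 0) = _
  by_cases h : m i = 0
  · simp [h]
  · have hs : ∑ l, dec m i l + 1 = ∑ l, m l := by
      rw [← Finset.add_sum_erase _ _ (Finset.mem_univ i),
        ← Finset.add_sum_erase _ (fun l => m l) (Finset.mem_univ i)]
      have : ∑ l ∈ Finset.univ.erase i, dec m i l
          = ∑ l ∈ Finset.univ.erase i, m l := by
        apply Finset.sum_congr rfl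
        intro l hl
        exact dec_ne m (Finset.ne_of_mem_erase hl).symm
      rw [this, dec_self]
      omega
    rw [if_pos (by simpa using h), coeff_pol]
    by_cases h2 : ∑ l, m l = r + 1
    · rw [if_pos (by omega), if_pos ⟨h, h2⟩]
    · rw [if_neg (by omega), if_neg (by tauto)]

theorem cw_sub (τ : ℝ) (i : Fin n) (m : Fin n →₀ ℕ) (h : m i ≠ 0) :
    cw τ (dec m i) * (τ + ((m i : ℝ) - 1)) = cw τ m * m i := by
  unfold cw
  rw [← Finset.mul_prod_erase _ _ (Finset.mem_univ i),
    ← Finset.mul_prod_erase _ (fun l => w τ (m l)) (Finset.mem_univ i)]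
  have : ∏ l ∈ Finset.univ.erase i, w τ (dec m i l)
      = ∏ l ∈ Finset.univ.erase i, w τ (m l) := by
    apply Finset.prod_congr rfl
    intro l hl
    rw [dec_ne m (Finset.ne_of_mem_erase hl).symm]
  rw [this]
  obtain ⟨k, hk⟩ := Nat.exists_eq_succ_of_ne_zero h
  have h3 : dec m i i = k := by
    rw [dec_self, hk]; simp
  rw [h3, hk]
  have := w_succ τ k
  push_cast
  linear_combination (-∏ l ∈ Finset.univ.erase i, w τ (m l)) * this

/-- `h^i_r = x_i ∂_i g_r` satisfies a two-term recursion -/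
theorem h_succ (τ : ℝ) (i : Fin n) (r : ℕ) :
    X i * pderiv i (g τ (r + 1) : MvPolynomial (Fin n) ℝ)
      = X i * (X i * pderiv i (g τ r)) + C τ * (X i * g τ r) := by
  have e1 : X i * pderiv i (g τ r : MvPolynomial (Fin n) ℝ)
      = pol r (fun m => (m i : ℝ) * cw τ m) := by
    ext m
    rw [coeff_X_mul_pderiv, g, coeff_pol, coeff_pol]
    split_ifs <;> simp
  rw [e1]
  ext m
  rw [coeff_X_mul_pderiv, coeff_add, coeff_C_mul, coeff_X_mul_pol, g, g, coeff_X_mul_pol,
    coeff_pol]
  by_cases h : m i = 0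
  · simp [h]
  · by_cases h2 : ∑ l, m l = r + 1
    · rw [if_pos h2, if_pos ⟨h, h2⟩, if_pos ⟨h, h2⟩]
      have := cw_sub τ i m h
      have h3 : ((dec m i i : ℕ) : ℝ) = (m i : ℝ) - 1 := by
        rw [dec_self, Nat.cast_sub (Nat.one_le_iff_ne_zero.mpr h)]
        simp
      rw [h3]
      linear_combination -this
    · rw [if_neg h2, if_neg (by tauto), if_neg (by tauto)]; simp

theorem sum_h (τ : ℝ) (r : ℕ) :
    ∑ i, X i * pderiv i (g τ r : MvPolynomial (Fin n) ℝ) = C (r : ℝ) * g τ r := by
  ext m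
  rw [coeff_sum, coeff_C_mul]
  simp only [coeff_X_mul_pderiv]
  rw [← Finset.sum_mul, g, coeff_pol]
  split_ifs with h
  · rw [← h]; push_cast; ring
  · simp

/-- the quotient for `g_r` -/
noncomputable def Q (τ : ℝ) (r : ℕ) (i j : Fin n) : MvPolynomial (Fin n) ℝ :=
  pol r (fun m => cw τ m * ((m i : ℝ) + m j + m i * m j / τ))

theorem Q_spec (τ : ℝ) (hτ : 0 < τ) (r : ℕ) (i j : Fin n) (hij : i ≠ j) :
    (X i - X j) * Q τ r i j = X i ^ 2 * pderiv i (g τ r) - X j ^ 2 * pderiv j (g τ r) := by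
  have e1 : ∀ i, X i ^ 2 * pderiv i (g τ r : MvPolynomial (Fin n) ℝ)
      = X i * pol r (fun m => (m i : ℝ) * cw τ m) := by
    intro i
    rw [pow_two, mul_assoc]
    congr 1
    ext m
    rw [coeff_X_mul_pderiv, g, coeff_pol, coeff_pol]
    split_ifs <;> simp
  rw [e1, e1, sub_mul]
  ext m
  unfold Q
  rw [coeff_sub, coeff_sub, coeff_X_mul_pol, coeff_X_mul_pol, coeff_X_mul_pol, coeff_X_mul_pol]
  by_cases h2 : ∑ l, m l = r + 1
  swap
  · simp [h2]
  have a1 := dec_self m i
  have a2 := dec_self m j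
  have a3 := dec_ne m hij
  have a4 := dec_ne m hij.symm
  by_cases hi : m i = 0
  · by_cases hj : m j = 0
    · simp [hi, hj]
    · simp only [hi, hj, h2, ne_eq, not_true_eq_false, false_and, if_false, not_false_eq_true,
        and_self, if_true, a2, a4]
      simp
      ring
  · by_cases hj : m j = 0
    · simp only [hi, hj, h2, ne_eq, not_true_eq_false, false_and, if_false, not_false_eq_true,
        and_self, if_true, a1, a3]
      simp
      ring
    · simp only [hi, hj, h2, ne_eq, not_false_eq_true, and_self, if_true, a1, a2, a3, a4]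
      rw [Nat.cast_sub (Nat.one_le_iff_ne_zero.mpr hi), Nat.cast_sub (Nat.one_le_iff_ne_zero.mpr hj)]
      have c1 := cw_sub τ i m hi
      have c2 := cw_sub τ j m hj
      have hτ' := hτ.ne'
      push_cast
      field_simp
      linear_combination (m j : ℝ) * c1 - (m i : ℝ) * c2

/-- `d` is a value of the Laplace–Beltrami operator at `f` -/
def IsD (τ : ℝ) (f d : MvPolynomial (Fin n) ℝ) : Prop :=
  ∃ q : Fin n → Fin n → MvPolynomial (Fin n) ℝ,
    (∀ i j : Fin n, i < j →
      (X i - X j) * q i j = X i ^ 2 * pderiv i f - X j ^ 2 * pderiv j f) ∧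
    ∑ i : Fin n, X i ^ 2 * pderiv i (pderiv i f)
      + C (2 * τ) * ∑ i : Fin n, ∑ j : Fin n, (if i < j then q i j else 0) = d

theorem IsD.add {τ : ℝ} {f d f' d' : MvPolynomial (Fin n) ℝ} (h : IsD τ f d) (h' : IsD τ f' d') :
    IsD τ (f + f') (d + d') := by
  obtain ⟨q, h1, h2⟩ := h
  obtain ⟨q', h1', h2'⟩ := h'
  refine ⟨fun i j => q i j + q' i j, ?_, ?_⟩
  · intro i j hij
    rw [mul_add, h1 i j hij, h1' i j hij, map_add, map_add]; ring
  · rw [← h2, ← h2']
    have : ∀ i j : Fin n, (if i < j then q i j + q' i j else 0)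
        = (if i < j then q i j else 0) + (if i < j then q' i j else 0) := by
      intro i j; split_ifs <;> simp
    simp only [this, Finset.sum_add_distrib, map_add, mul_add]
    ring

theorem IsD.smul {τ : ℝ} {f d : MvPolynomial (Fin n) ℝ} (a : ℝ) (h : IsD τ f d) :
    IsD τ (C a * f) (C a * d) := by
  obtain ⟨q, h1, h2⟩ := h
  refine ⟨fun i j => C a * q i j, ?_, ?_⟩
  · intro i j hij
    have := h1 i j hij
    rw [pderiv_C_mul, pderiv_C_mul]
    linear_combination (C a) * this
  · rw [← h2]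
    have : ∀ i j : Fin n, (if i < j then C a * q i j else 0)
        = C a * (if i < j then q i j else 0) := by
      intro i j; split_ifs <;> simp
    simp only [this, ← Finset.mul_sum]
    have h3 : ∀ i, X i ^ 2 * pderiv i (pderiv i (C a * f))
        = C a * (X i ^ 2 * pderiv i (pderiv i f)) := by
      intro i
      rw [pderiv_C_mul, pderiv_C_mul]; ring
    simp only [h3, ← Finset.mul_sum]
    ring

theorem IsD.sum {τ : ℝ} {ι : Type*} (s : Finset ι) (f d : ι → MvPolynomial (Fin n) ℝ)
    (h : ∀ i ∈ s, IsD τ (f i) (d i)) : IsD τ (∑ i ∈ s, f i) (∑ i ∈ s, d i) := by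
  classical
  induction s using Finset.induction_on with
  | empty =>
    refine ⟨fun _ _ => 0, ?_, ?_⟩
    · intro i j _; simp
    · simp
  | insert a s ha ih =>
    rw [Finset.sum_insert ha, Finset.sum_insert ha]
    exact (h a (Finset.mem_insert_self _ _)).add
      (ih (fun i hi => h i (Finset.mem_insert_of_mem hi)))

theorem IsD.mul {τ : ℝ} {f d f' d' : MvPolynomial (Fin n) ℝ} (h : IsD τ f d) (h' : IsD τ f' d') :
    IsD τ (f * f') (f' * d + f * d'
      + 2 * ∑ i, (X i * pderiv i f) * (X i * pderiv i f')) := by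
  obtain ⟨q, h1, h2⟩ := h
  obtain ⟨q', h1', h2'⟩ := h'
  refine ⟨fun i j => f' * q i j + f * q' i j, ?_, ?_⟩
  · intro i j hij
    have e1 := h1 i j hij
    have e2 := h1' i j hij
    simp only [Derivation.leibniz, smul_eq_mul]
    linear_combination f' * e1 + f * e2
  · rw [← h2, ← h2']
    have : ∀ i j : Fin n, (if i < j then f' * q i j + f * q' i j else 0)
        = f' * (if i < j then q i j else 0) + f * (if i < j then q' i j else 0) := by
      intro i j; split_ifs <;> simp
    simp only [this, Finset.sum_add_distrib, ← Finset.mul_sum]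
    have h3 : ∀ i, X i ^ 2 * pderiv i (pderiv i (f * f'))
        = f' * (X i ^ 2 * pderiv i (pderiv i f)) + f * (X i ^ 2 * pderiv i (pderiv i f'))
          + 2 * ((X i * pderiv i f) * (X i * pderiv i f')) := by
      intro i
      simp only [Derivation.leibniz, smul_eq_mul, map_add]
      ring
    simp only [h3, Finset.sum_add_distrib, ← Finset.mul_sum]
    ring

theorem sum_lt_symm (f : Fin n → Fin n → ℝ) (hf : ∀ i j, f i j = f j i) :
    ∑ i, ∑ j, f i j = 2 * ∑ i, ∑ j, (if i < j then f i j else 0) + ∑ i, f i i := by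
  have h1 : ∀ i j : Fin n, f i j = (if i < j then f i j else 0) + (if j < i then f i j else 0)
      + (if i = j then f i j else 0) := by
    intro i j
    rcases lt_trichotomy i j with h | h | h
    · simp [h, h.not_gt, h.ne]
    · simp [h]
    · simp [h, h.not_gt, h.ne']
  have h2 : ∑ i, ∑ j, (if j < i then f i j else 0) = ∑ i, ∑ j, (if i < j then f i j else 0) := by
    rw [Finset.sum_comm]
    refine Finset.sum_congr rfl fun i _ => Finset.sum_congr rfl fun j _ => ?_
    split_ifs
    · exact hf _ _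
    · rfl
  have h3 : ∑ i, ∑ j, (if i = j then f i j else 0) = ∑ i, f i i := by
    refine Finset.sum_congr rfl fun i _ => ?_
    simp
  calc ∑ i, ∑ j, f i j = ∑ i, ∑ j, ((if i < j then f i j else 0) + (if j < i then f i j else 0)
      + (if i = j then f i j else 0)) := by
        refine Finset.sum_congr rfl fun i _ => Finset.sum_congr rfl fun j _ => h1 i j
    _ = _ := by
        simp only [Finset.sum_add_distrib]
        rw [h2, h3]; ring

theorem isD_g (τ : ℝ) (hτ : 0 < τ) (r : ℕ) :
    IsD τ (g τ r : MvPolynomial (Fin n) ℝ)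
      (C ((r : ℝ) * r - r + 2 * τ * ((n : ℝ) - 1) * r) * g τ r) := by
  refine ⟨fun i j => Q τ r i j, ?_, ?_⟩
  · intro i j hij
    exact Q_spec τ hτ r i j hij.ne
  · ext m
    rw [coeff_add, coeff_sum, coeff_C_mul, coeff_C_mul, coeff_sum]
    simp only [coeff_X_sq_mul, coeff_sum]
    have h1 : ∀ i j : Fin n, coeff m (if i < j then Q τ r i j else 0)
        = if i < j then (if ∑ l, m l = r then cw τ m * ((m i : ℝ) + m j + m i * m j / τ) else 0)
          else 0 := by
      intro i j
      split_ifs with h2 h3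
      · simp [Q, coeff_pol, h3]
      · simp [Q, coeff_pol, h3]
      · simp
    simp only [h1, g, coeff_pol]
    by_cases h2 : ∑ l, m l = r
    swap
    · simp [h2]
    simp only [h2, if_true]
    have k1 := sum_lt_symm (fun i j : Fin n => cw τ m * ((m i : ℝ) + m j + m i * m j / τ))
      (fun i j => by ring)
    have hτ' := hτ.ne'
    have k2 : ∑ i : Fin n, (m i : ℝ) = r := by exact_mod_cast h2
    have k3 : ∑ i : Fin n, ∑ j : Fin n, cw τ m * ((m i : ℝ) + m j + m i * m j / τ)
        = cw τ m * (2 * n * r + r * r / τ) := by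
      simp only [← Finset.mul_sum, Finset.sum_add_distrib, ← Finset.sum_div, k2,
        Finset.sum_const, Finset.card_univ, Fintype.card_fin, nsmul_eq_mul, ← Finset.sum_mul]
      ring
    rw [k3] at k1
    have k4 : ∑ i : Fin n, cw τ m * ((m i : ℝ) + m i + m i * m i / τ)
        = cw τ m * (2 * r + (∑ i : Fin n, (m i : ℝ) * m i) / τ) := by
      simp only [← Finset.mul_sum, Finset.sum_add_distrib, ← Finset.sum_div, k2]
      ring
    rw [k4] at k1
    have k5 : ∑ i : Fin n, ((m i : ℝ) * m i - m i) * cw τ m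
        = (∑ i : Fin n, (m i : ℝ) * m i - r) * cw τ m := by
      rw [← Finset.sum_mul, Finset.sum_sub_distrib, k2]
    rw [k5]
    have k6 : 2 * ∑ i : Fin n, ∑ j : Fin n, (if i < j then cw τ m * ((m i : ℝ) + m j + m i * m j / τ) else 0)
      = cw τ m * (2 * n * r + r * r / τ)
        - cw τ m * (2 * r + (∑ i : Fin n, (m i : ℝ) * m i) / τ) := by linarith
    rw [mul_comm (2 : ℝ) τ, mul_assoc, k6]
    field_simp
    ring

end Pool.Agent.MPcdddd3
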