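import Mathlib
import Pool.Agent.Lib.MP_cdddd3_co.Basic

set_option autoImplicit false

namespace Pool.Agent.MPcdddd3

open MvPolynomial Finset

variable {n : ℕ}

/-- `∑ i, (x_i ∂_i g_r) (x_i ∂_i g_s)` -/
noncomputable def pr (τ : ℝ) (r s : ℕ) : MvPolynomial (Fin n) ℝ :=
  ∑ i, (X i * pderiv i (g τ r)) * (X i * pderiv i (g τ s))

theorem pr_zero (τ : ℝ) (r : ℕ) : (pr τ r 0 : MvPolynomial (Fin n) ℝ) = 0 := by
  unfold pr
  refine Finset.sum_eq_zero fun i _ => ?_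
  have : X i * pderiv i (g τ 0 : MvPolynomial (Fin n) ℝ) = 0 := by
    ext m
    rw [coeff_X_mul_pderiv, g, coeff_pol]
    split_ifs with h
    · rw [Finset.sum_eq_zero_iff] at h
      rw [h i (Finset.mem_univ i)]; simp
    · simp
  rw [this, mul_zero]

theorem pr_rec (τ : ℝ) (r s : ℕ) : (pr τ r (s + 1) : MvPolynomial (Fin n) ℝ)
    = pr τ (r + 1) s + C τ * (C ((r : ℝ) + 1) * (g τ (r + 1) * g τ s)
      - C ((s : ℝ) + 1) * (g τ r * g τ (s + 1))) := by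
  have e1 := sum_h (n := n) τ (r + 1)
  have e2 := sum_h (n := n) τ (s + 1)
  have key : ∀ i : Fin n, (X i * pderiv i (g τ r)) * (X i * pderiv i (g τ (s + 1)))
      = (X i * pderiv i (g τ (r + 1))) * (X i * pderiv i (g τ s))
        + C τ * ((X i * pderiv i (g τ (r + 1))) * g τ s
          - g τ r * (X i * pderiv i (g τ (s + 1)))) := by
    intro i
    rw [h_succ τ i r, h_succ τ i s]
    ring
  unfold pr
  rw [Finset.sum_congr rfl fun i _ => key i, Finset.sum_add_distrib, ← Finset.mul_sum,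
    Finset.sum_sub_distrib, ← Finset.sum_mul, ← Finset.mul_sum, e1, e2]
  push_cast
  ring

/-- coefficients of the two-row function of shape `(8, 8)` -/
def dd {A : Type*} [CommRing A] (t : A) : ℕ → A
  | 0 => (t + 1)*(t + 2)*(t + 3)*(t + 4)*(t + 5)*(t + 6)*(t + 7)*(t + 8)
  | 1 => -2 * t * (t + 2) * (t + 3) * (t + 4) * (t + 5) * (t + 6) * (t + 7) * (t + 8)
  | 2 => -2 * t * (1 - t) * (t + 3) * (t + 4) * (t + 5) * (t + 6) * (t + 7) * (t + 8)
  | 3 => -2 * t * (1 - t) * (2 - t) * (t + 4) * (t + 5) * (t + 6) * (t + 7) * (t + 8)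
  | 4 => -2 * t * (1 - t) * (2 - t) * (3 - t) * (t + 5) * (t + 6) * (t + 7) * (t + 8)
  | 5 => -2 * t * (1 - t) * (2 - t) * (3 - t) * (4 - t) * (t + 6) * (t + 7) * (t + 8)
  | 6 => -2 * t * (1 - t) * (2 - t) * (3 - t) * (4 - t) * (5 - t) * (t + 7) * (t + 8)
  | 7 => -2 * t * (1 - t) * (2 - t) * (3 - t) * (4 - t) * (5 - t) * (6 - t) * (t + 8)
  | 8 => -2 * t * (1 - t) * (2 - t) * (3 - t) * (4 - t) * (5 - t) * (6 - t) * (7 - t)
  | _ => 0

theorem C_dd (τ : ℝ) (j : ℕ) : (C (dd τ j) : MvPolynomial (Fin n) ℝ) = dd (C τ) j := by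
  unfold dd
  split <;> simp [map_mul, map_add, map_sub, map_ofNat]

theorem dd_rel1 {A : Type*} [CommRing A] (t : A) :
    dd t 1 * (t + 1) + 2 * t * (dd t 0) = 0 := by
  simp only [dd]; ring

theorem dd_rel2 {A : Type*} [CommRing A] (t : A) :
    dd t 2 * (t + 2) + 2 * t * (dd t 0 + dd t 1) = 0 := by
  simp only [dd]; ring

theorem dd_rel3 {A : Type*} [CommRing A] (t : A) :
    dd t 3 * (t + 3) + 2 * t * (dd t 0 + dd t 1 + dd t 2) = 0 := by
  simp only [dd]; ring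

theorem dd_rel4 {A : Type*} [CommRing A] (t : A) :
    dd t 4 * (t + 4) + 2 * t * (dd t 0 + dd t 1 + dd t 2 + dd t 3) = 0 := by
  simp only [dd]; ring

theorem dd_rel5 {A : Type*} [CommRing A] (t : A) :
    dd t 5 * (t + 5) + 2 * t * (dd t 0 + dd t 1 + dd t 2 + dd t 3 + dd t 4) = 0 := by
  simp only [dd]; ring

theorem dd_rel6 {A : Type*} [CommRing A] (t : A) :
    dd t 6 * (t + 6) + 2 * t * (dd t 0 + dd t 1 + dd t 2 + dd t 3 + dd t 4 + dd t 5) = 0 := by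
  simp only [dd]; ring

theorem dd_rel7 {A : Type*} [CommRing A] (t : A) :
    dd t 7 * (t + 7) + 2 * t * (dd t 0 + dd t 1 + dd t 2 + dd t 3 + dd t 4 + dd t 5 + dd t 6) = 0 := by
  simp only [dd]; ring

theorem dd_rel8 {A : Type*} [CommRing A] (t : A) :
    dd t 8 * (t + 8) + 2 * t * (dd t 0 + dd t 1 + dd t 2 + dd t 3 + dd t 4 + dd t 5 + dd t 6 + dd t 7) = 0 := by
  simp only [dd]; ring

/-- the integral Jack polynomial of shape `(8, 8)` -/
noncomputable def J (τ : ℝ) : MvPolynomial (Fin n) ℝ :=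
  C 40320 * ∑ j ∈ range 9, C (dd τ j) * (g τ (8 + j) * g τ (8 - j))

theorem isD_J (τ : ℝ) (hτ : 0 < τ) :
    IsD τ (J τ : MvPolynomial (Fin n) ℝ)
      (C (112 + 32 * τ * ((n : ℝ) - 1) - 16 * τ) * J τ) := by
  have h1 : IsD τ (J τ : MvPolynomial (Fin n) ℝ) _ :=
    (IsD.sum (range 9) _ _ (fun j _ => ((isD_g (n := n) τ hτ (8 + j)).mul
      (isD_g (n := n) τ hτ (8 - j))).smul (dd τ j))).smul 40320
  convert h1 using 1
  have q0 := pr_rec (n := n) τ 8 7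
  have q1 := pr_rec (n := n) τ 9 6
  have q2 := pr_rec (n := n) τ 10 5
  have q3 := pr_rec (n := n) τ 11 4
  have q4 := pr_rec (n := n) τ 12 3
  have q5 := pr_rec (n := n) τ 13 2
  have q6 := pr_rec (n := n) τ 14 1
  have q7 := pr_rec (n := n) τ 15 0
  have q8 := pr_zero (n := n) τ 16
  simp only [Nat.reduceAdd] at q0 q1 q2 q3 q4 q5 q6 q7
  unfold J
  simp only [← pr.eq_def]
  simp only [Finset.sum_range_succ, Finset.sum_range_zero, zero_add, Nat.reduceAdd, Nat.reduceSub,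
    add_zero, Nat.sub_zero, C_dd, Nat.sub_self]
  simp only [Nat.cast_ofNat, map_add, map_sub, map_mul, map_ofNat, map_one, Nat.cast_one,
    Nat.cast_zero, map_zero, zero_add] at q0 q1 q2 q3 q4 q5 q6 q7 ⊢
  generalize (C τ : MvPolynomial (Fin n) ℝ) = T at *
  generalize (C (n : ℝ) : MvPolynomial (Fin n) ℝ) = N at *
  linear_combination (exp := 1) (-80640 * (dd T 0)) * q0 + (-80640 * (dd T 0 + dd T 1)) * q1 + (-80640 * (dd T 0 + dd T 1 + dd T 2)) * q2 + (-80640 * (dd T 0 + dd T 1 + dd T 2 + dd T 3)) * q3 + (-80640 * (dd T 0 + dd T 1 + dd T 2 + dd T 3 + dd T 4)) * q4 + (-80640 * (dd T 0 + dd T 1 + dd T 2 + dd T 3 + dd T 4 + dd T 5)) * q5 + (-80640 * (dd T 0 + dd T 1 + dd T 2 + dd T 3 + dd T 4 + dd T 5 + dd T 6)) * q6 + (-80640 * (dd T 0 + dd T 1 + dd T 2 + dd T 3 + dd T 4 + dd T 5 + dd T 6 + dd T 7)) * q7 + (-80640 * (dd T 0 + dd T 1 + dd T 2 + dd T 3 + dd T 4 + dd T 5 + dd T 6 + dd T 7 +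 dd T 8)) * q8 +
    (-80640 * 1 * (g τ 9 * g τ 7)) * dd_rel1 T +
    (-80640 * 2 * (g τ 10 * g τ 6)) * dd_rel2 T +
    (-80640 * 3 * (g τ 11 * g τ 5)) * dd_rel3 T +
    (-80640 * 4 * (g τ 12 * g τ 4)) * dd_rel4 T +
    (-80640 * 5 * (g τ 13 * g τ 3)) * dd_rel5 T +
    (-80640 * 6 * (g τ 14 * g τ 2)) * dd_rel6 T +
    (-80640 * 7 * (g τ 15 * g τ 1)) * dd_rel7 T +
    (-80640 * 8 * (g τ 16 * g τ 0)) * dd_rel8 T

end Pool.Agent.MPcdddd3
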