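import Mathlib
import Pool.Agent.Lib.MP_cdddd3_co.Eigen

set_option autoImplicit false

namespace Pool.Agent.MPcdddd3

open MvPolynomial Finset

variable {n : ℕ}

theorem g_symm (τ : ℝ) (r : ℕ) : (g τ r : MvPolynomial (Fin n) ℝ).IsSymmetric := by
  intro e
  ext m
  have hm : m = Finsupp.mapDomain e (Finsupp.mapDomain e.symm m) := by
    rw [← Finsupp.mapDomain_comp]
    simp
  rw [hm, coeff_rename_mapDomain _ e.injective, g, coeff_pol, coeff_pol]
  have h1 : ∀ (u : Fin n →₀ ℕ) (i : Fin n), Finsupp.mapDomain e u (e i) = u i :=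
    fun u i => Finsupp.mapDomain_apply e.injective u i
  have h2 : ∀ u : Fin n →₀ ℕ, ∑ i, Finsupp.mapDomain e u i = ∑ i, u i := by
    intro u
    rw [← Equiv.sum_comp e]
    simp only [h1]
  have h3 : ∀ u : Fin n →₀ ℕ, cw τ (Finsupp.mapDomain e u) = cw τ u := by
    intro u
    unfold cw
    rw [← Equiv.prod_comp e]
    simp only [h1]
  rw [h2, h3]

theorem J_symm (τ : ℝ) : (J τ : MvPolynomial (Fin n) ℝ).IsSymmetric := by
  unfold J
  refine (IsSymmetric.C _).mul ?_
  rw [← mem_symmetricSubalgebra]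
  refine Subalgebra.sum_mem _ fun j _ => ?_
  rw [mem_symmetricSubalgebra]
  exact (IsSymmetric.C _).mul ((g_symm τ _).mul (g_symm τ _))

/-- `∑ a, w_a w_{k-a} y^a` -/
noncomputable def W (τ : ℝ) (k : ℕ) : Polynomial ℝ :=
  ∑ a ∈ range (k + 1), Polynomial.C (w τ a * w τ (k - a)) * Polynomial.X ^ a

theorem coeff_W (τ : ℝ) (k a : ℕ) :
    (W τ k).coeff a = if a ≤ k then w τ a * w τ (k - a) else 0 := by
  unfold W
  rw [Polynomial.finsetSum_coeff]
  simp only [Polynomial.coeff_C_mul, Polynomial.coeff_X_pow, mul_ite, mul_one, mul_zero]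
  rw [Finset.sum_ite_eq]
  simp

theorem natDegree_W (τ : ℝ) (k : ℕ) : (W τ k).natDegree ≤ k := by
  rw [Polynomial.natDegree_le_iff_coeff_eq_zero]
  intro N hN
  rw [coeff_W, if_neg (by omega)]

theorem coeff_g_mul_g (τ : ℝ) (r s : ℕ) (m : Fin n →₀ ℕ) :
    coeff m (g τ r * g τ s) = if ∑ i, m i = r + s then (∏ i, W τ (m i)).coeff r else 0 := by
  rw [coeff_mul]
  have h0 : ∀ x ∈ HasAntidiagonal.antidiagonal m,
      coeff x.1 (g τ r : MvPolynomial (Fin n) ℝ) * coeff x.2 (g τ s : MvPolynomial (Fin n) ℝ)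
      = if ∑ i, m i = r + s then
          (if ∑ i, x.1 i = r then ∏ i, (w τ (x.1 i) * w τ (m i - x.1 i)) else 0) else 0 := by
    intro x hx
    rw [HasAntidiagonal.mem_antidiagonal] at hx
    have h1 : ∀ i, m i = x.1 i + x.2 i := by
      intro i; rw [← hx]; rfl
    have h2 : ∑ i, m i = ∑ i, x.1 i + ∑ i, x.2 i := by
      rw [← Finset.sum_add_distrib]; exact Finset.sum_congr rfl fun i _ => h1 i
    rw [g, g, coeff_pol, coeff_pol]
    by_cases a1 : ∑ i, x.1 i = r
    · by_cases a2 : ∑ i, x.2 i = s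
      · rw [if_pos a1, if_pos a2, if_pos (by omega), if_pos a1]
        unfold cw
        rw [← Finset.prod_mul_distrib]
        refine Finset.prod_congr rfl fun i _ => ?_
        rw [h1 i, Nat.add_sub_cancel_left]
      · rw [if_neg a2, mul_zero]
        rw [if_neg (show ¬ (∑ i, m i = r + s) by omega)]
    · rw [if_neg a1, if_neg a1, zero_mul]
      simp
  rw [Finset.sum_congr rfl h0]
  by_cases hs : ∑ i, m i = r + s
  swap
  · simp [hs]
  simp only [hs, if_true]
  unfold W
  rw [Finset.prod_univ_sum, Polynomial.finsetSum_coeff]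
  have h3 : ∀ p : Fin n → ℕ, (∏ i, (Polynomial.C (w τ (p i) * w τ (m i - p i))
      * Polynomial.X ^ (p i) : Polynomial ℝ)).coeff r
      = if ∑ i, p i = r then ∏ i, (w τ (p i) * w τ (m i - p i)) else 0 := by
    intro p
    rw [Finset.prod_mul_distrib, Finset.prod_pow_eq_pow_sum, ← map_prod,
      Polynomial.coeff_C_mul, Polynomial.coeff_X_pow]
    by_cases h : ∑ i, p i = r
    · simp [h]
    · rw [if_neg h, if_neg (fun h' => h h'.symm), mul_zero]
  simp only [h3]
  refine Finset.sum_nbij' (fun x => ⇑x.1)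
    (fun p => (Finsupp.equivFunOnFinite.symm p, m - Finsupp.equivFunOnFinite.symm p)) ?_ ?_ ?_ ?_ ?_
  · intro x hx
    rw [HasAntidiagonal.mem_antidiagonal] at hx
    rw [Fintype.mem_piFinset]
    intro i
    rw [Finset.mem_range, ← hx]
    simp only [Finsupp.coe_add, Pi.add_apply]
    omega
  · intro p hp
    rw [Fintype.mem_piFinset] at hp
    rw [HasAntidiagonal.mem_antidiagonal]
    ext i
    have := hp i
    rw [Finset.mem_range] at this
    simp only [Finsupp.coe_add, Finsupp.coe_tsub, Pi.add_apply, Pi.sub_apply,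
      Finsupp.equivFunOnFinite_symm_apply_apply]
    omega
  · intro x hx
    rw [HasAntidiagonal.mem_antidiagonal] at hx
    have h1 : ∀ i, m i = x.1 i + x.2 i := by
      intro i; rw [← hx]; rfl
    refine Prod.ext ?_ ?_
    · simp
    · ext i
      simp [h1 i]
  · intro p _
    simp
  · intro x _
    rfl

/-- the linear functional giving the coefficients of `J` -/
noncomputable def L (τ : ℝ) (P : Polynomial ℝ) : ℝ :=
  ∑ j ∈ range 9, dd τ j * P.coeff (8 + j)

theorem coeff_J (τ : ℝ) (m : Fin n →₀ ℕ) :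
    coeff m (J τ) = if ∑ i, m i = 16 then 40320 * L τ (∏ i, W τ (m i)) else 0 := by
  unfold J L
  rw [coeff_C_mul, coeff_sum]
  have h : ∀ j ∈ range 9, coeff m (C (dd τ j) * (g τ (8 + j) * g τ (8 - j)))
      = if ∑ i, m i = 16 then dd τ j * (∏ i, W τ (m i)).coeff (8 + j) else 0 := by
    intro j hj
    rw [Finset.mem_range] at hj
    rw [coeff_C_mul, coeff_g_mul_g]
    have : 8 + j + (8 - j) = 16 := by omega
    rw [this]
    split_ifs <;> simp
  rw [Finset.sum_congr rfl h]
  split_ifs <;> simp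

/-- palindromicity -/
theorem coeff_prod_W_symm (τ : ℝ) (m : Fin n →₀ ℕ) (hm : ∑ i, m i = 16) (j : ℕ) (hj : j ≤ 8) :
    (∏ i, W τ (m i)).coeff (8 + j) = (∏ i, W τ (m i)).coeff (8 - j) := by
  have h1 := coeff_g_mul_g τ (8 + j) (8 - j) m
  have h2 := coeff_g_mul_g τ (8 - j) (8 + j) m
  rw [if_pos (by omega)] at h1 h2
  rw [← h1, ← h2, mul_comm]

end Pool.Agent.MPcdddd3
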