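import Mathlib
import Pool.Agent.Lib.MP_cdddd3_co.Coeff

set_option autoImplicit false
set_option linter.unusedSimpArgs false

namespace Pool.Agent.MPcdddd3

open Finset

theorem w1 (t : ℝ) : w t 1 = t / 1 := by
  simp [w, prod_range_succ, Nat.factorial]
theorem w2 (t : ℝ) : w t 2 = t * (t + 1) / 2 := by
  simp [w, prod_range_succ, Nat.factorial]
theorem w3 (t : ℝ) : w t 3 = t * (t + 1) * (t + 2) / 6 := by
  simp [w, prod_range_succ, Nat.factorial]
theorem w4 (t : ℝ) : w t 4 = t * (t + 1) * (t + 2) * (t + 3) / 24 := by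
  simp [w, prod_range_succ, Nat.factorial]
theorem w5 (t : ℝ) : w t 5 = t * (t + 1) * (t + 2) * (t + 3) * (t + 4) / 120 := by
  simp [w, prod_range_succ, Nat.factorial]
theorem w6 (t : ℝ) : w t 6 = t * (t + 1) * (t + 2) * (t + 3) * (t + 4) * (t + 5) / 720 := by
  simp [w, prod_range_succ, Nat.factorial]
theorem w7 (t : ℝ) : w t 7 = t * (t + 1) * (t + 2) * (t + 3) * (t + 4) * (t + 5) * (t + 6) / 5040 := by
  simp [w, prod_range_succ, Nat.factorial]
theorem w8 (t : ℝ) : w t 8 = t * (t + 1) * (t + 2) * (t + 3) * (t + 4) * (t + 5) * (t + 6) * (t + 7) / 40320 := by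
  simp [w, prod_range_succ, Nat.factorial]
theorem w9 (t : ℝ) : w t 9 = t * (t + 1) * (t + 2) * (t + 3) * (t + 4) * (t + 5) * (t + 6) * (t + 7) * (t + 8) / 362880 := by
  simp [w, prod_range_succ, Nat.factorial]
theorem w10 (t : ℝ) : w t 10 = t * (t + 1) * (t + 2) * (t + 3) * (t + 4) * (t + 5) * (t + 6) * (t + 7) * (t + 8) * (t + 9) / 3628800 := by
  simp [w, prod_range_succ, Nat.factorial]
theorem w11 (t : ℝ) : w t 11 = t * (t + 1) * (t + 2) * (t + 3) * (t + 4) * (t + 5) * (t + 6) * (t + 7) * (t + 8) * (t + 9) * (t + 10) / 39916800 := by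
  simp [w, prod_range_succ, Nat.factorial]
theorem w12 (t : ℝ) : w t 12 = t * (t + 1) * (t + 2) * (t + 3) * (t + 4) * (t + 5) * (t + 6) * (t + 7) * (t + 8) * (t + 9) * (t + 10) * (t + 11) / 479001600 := by
  simp [w, prod_range_succ, Nat.factorial]
theorem w13 (t : ℝ) : w t 13 = t * (t + 1) * (t + 2) * (t + 3) * (t + 4) * (t + 5) * (t + 6) * (t + 7) * (t + 8) * (t + 9) * (t + 10) * (t + 11) * (t + 12) / 6227020800 := by
  simp [w, prod_range_succ, Nat.factorial]
theorem w14 (t : ℝ) : w t 14 = t * (t + 1) * (t + 2) * (t + 3) * (t + 4) * (t + 5) * (t + 6) * (t + 7) * (t + 8) * (t + 9) * (t + 10) * (t + 11) * (t + 12) * (t + 13) / 87178291200 := by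
  simp [w, prod_range_succ, Nat.factorial]
theorem w15 (t : ℝ) : w t 15 = t * (t + 1) * (t + 2) * (t + 3) * (t + 4) * (t + 5) * (t + 6) * (t + 7) * (t + 8) * (t + 9) * (t + 10) * (t + 11) * (t + 12) * (t + 13) * (t + 14) / 1307674368000 := by
  simp [w, prod_range_succ, Nat.factorial]
theorem w16 (t : ℝ) : w t 16 = t * (t + 1) * (t + 2) * (t + 3) * (t + 4) * (t + 5) * (t + 6) * (t + 7) * (t + 8) * (t + 9) * (t + 10) * (t + 11) * (t + 12) * (t + 13) * (t + 14) * (t + 15) / 20922789888000 := by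
  simp [w, prod_range_succ, Nat.factorial]

/-- symmetric version of the coefficient sequence -/
def dl {A : Type*} [CommRing A] (t : A) (r : ℕ) : A :=
  if r < 8 then dd t (8 - r) else if r = 8 then 2 * dd t 0 else dd t (r - 8)

theorem dl_lt {A : Type*} [CommRing A] (t : A) (r : ℕ) (h : r < 8) : dl t r = dd t (8 - r) := by
  simp [dl, h]

theorem van_9_0 (t : ℝ) : ∑ a ∈ range 10, dl t (0 + a) * (w t a * w t (9 - a)) = 0 := by
  simp only [sum_range_succ, sum_range_zero, zero_add, Nat.reduceAdd, Nat.reduceSub, add_zero,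
    Nat.sub_self, Nat.sub_zero, dl, Nat.reduceLT, if_true, if_false, Nat.reduceEqDiff, dd,
    w_zero, w1, w2, w3, w4, w5, w6, w7, w8, w9, w10, w11, w12, w13, w14, w15, w16]
  ring

theorem van_9_1 (t : ℝ) : ∑ a ∈ range 10, dl t (1 + a) * (w t a * w t (9 - a)) = 0 := by
  simp only [sum_range_succ, sum_range_zero, zero_add, Nat.reduceAdd, Nat.reduceSub, add_zero,
    Nat.sub_self, Nat.sub_zero, dl, Nat.reduceLT, if_true, if_false, Nat.reduceEqDiff, dd,
    w_zero, w1, w2, w3, w4, w5, w6, w7, w8, w9, w10, w11, w12, w13, w14, w15, w16]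
  ring

theorem van_9_2 (t : ℝ) : ∑ a ∈ range 10, dl t (2 + a) * (w t a * w t (9 - a)) = 0 := by
  simp only [sum_range_succ, sum_range_zero, zero_add, Nat.reduceAdd, Nat.reduceSub, add_zero,
    Nat.sub_self, Nat.sub_zero, dl, Nat.reduceLT, if_true, if_false, Nat.reduceEqDiff, dd,
    w_zero, w1, w2, w3, w4, w5, w6, w7, w8, w9, w10, w11, w12, w13, w14, w15, w16]
  ring

theorem van_9_3 (t : ℝ) : ∑ a ∈ range 10, dl t (3 + a) * (w t a * w t (9 - a)) = 0 := by
  simp only [sum_range_succ, sum_range_zero, zero_add, Nat.reduceAdd, Nat.reduceSub, add_zero,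
    Nat.sub_self, Nat.sub_zero, dl, Nat.reduceLT, if_true, if_false, Nat.reduceEqDiff, dd,
    w_zero, w1, w2, w3, w4, w5, w6, w7, w8, w9, w10, w11, w12, w13, w14, w15, w16]
  ring

theorem van_9_4 (t : ℝ) : ∑ a ∈ range 10, dl t (4 + a) * (w t a * w t (9 - a)) = 0 := by
  simp only [sum_range_succ, sum_range_zero, zero_add, Nat.reduceAdd, Nat.reduceSub, add_zero,
    Nat.sub_self, Nat.sub_zero, dl, Nat.reduceLT, if_true, if_false, Nat.reduceEqDiff, dd,
    w_zero, w1, w2, w3, w4, w5, w6, w7, w8, w9, w10, w11, w12, w13, w14, w15, w16]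
  ring

theorem van_9_5 (t : ℝ) : ∑ a ∈ range 10, dl t (5 + a) * (w t a * w t (9 - a)) = 0 := by
  simp only [sum_range_succ, sum_range_zero, zero_add, Nat.reduceAdd, Nat.reduceSub, add_zero,
    Nat.sub_self, Nat.sub_zero, dl, Nat.reduceLT, if_true, if_false, Nat.reduceEqDiff, dd,
    w_zero, w1, w2, w3, w4, w5, w6, w7, w8, w9, w10, w11, w12, w13, w14, w15, w16]
  ring

theorem van_9_6 (t : ℝ) : ∑ a ∈ range 10, dl t (6 + a) * (w t a * w t (9 - a)) = 0 := by
  simp only [sum_range_succ, sum_range_zero, zero_add, Nat.reduceAdd, Nat.reduceSub, add_zero,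
    Nat.sub_self, Nat.sub_zero, dl, Nat.reduceLT, if_true, if_false, Nat.reduceEqDiff, dd,
    w_zero, w1, w2, w3, w4, w5, w6, w7, w8, w9, w10, w11, w12, w13, w14, w15, w16]
  ring

theorem van_9_7 (t : ℝ) : ∑ a ∈ range 10, dl t (7 + a) * (w t a * w t (9 - a)) = 0 := by
  simp only [sum_range_succ, sum_range_zero, zero_add, Nat.reduceAdd, Nat.reduceSub, add_zero,
    Nat.sub_self, Nat.sub_zero, dl, Nat.reduceLT, if_true, if_false, Nat.reduceEqDiff, dd,
    w_zero, w1, w2, w3, w4, w5, w6, w7, w8, w9, w10, w11, w12, w13, w14, w15, w16]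
  ring

theorem van_10_0 (t : ℝ) : ∑ a ∈ range 11, dl t (0 + a) * (w t a * w t (10 - a)) = 0 := by
  simp only [sum_range_succ, sum_range_zero, zero_add, Nat.reduceAdd, Nat.reduceSub, add_zero,
    Nat.sub_self, Nat.sub_zero, dl, Nat.reduceLT, if_true, if_false, Nat.reduceEqDiff, dd,
    w_zero, w1, w2, w3, w4, w5, w6, w7, w8, w9, w10, w11, w12, w13, w14, w15, w16]
  ring

theorem van_10_1 (t : ℝ) : ∑ a ∈ range 11, dl t (1 + a) * (w t a * w t (10 - a)) = 0 := by
  simp only [sum_range_succ, sum_range_zero, zero_add, Nat.reduceAdd, Nat.reduceSub, add_zero,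
    Nat.sub_self, Nat.sub_zero, dl, Nat.reduceLT, if_true, if_false, Nat.reduceEqDiff, dd,
    w_zero, w1, w2, w3, w4, w5, w6, w7, w8, w9, w10, w11, w12, w13, w14, w15, w16]
  ring

theorem van_10_2 (t : ℝ) : ∑ a ∈ range 11, dl t (2 + a) * (w t a * w t (10 - a)) = 0 := by
  simp only [sum_range_succ, sum_range_zero, zero_add, Nat.reduceAdd, Nat.reduceSub, add_zero,
    Nat.sub_self, Nat.sub_zero, dl, Nat.reduceLT, if_true, if_false, Nat.reduceEqDiff, dd,
    w_zero, w1, w2, w3, w4, w5, w6, w7, w8, w9, w10, w11, w12, w13, w14, w15, w16]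
  ring

theorem van_10_3 (t : ℝ) : ∑ a ∈ range 11, dl t (3 + a) * (w t a * w t (10 - a)) = 0 := by
  simp only [sum_range_succ, sum_range_zero, zero_add, Nat.reduceAdd, Nat.reduceSub, add_zero,
    Nat.sub_self, Nat.sub_zero, dl, Nat.reduceLT, if_true, if_false, Nat.reduceEqDiff, dd,
    w_zero, w1, w2, w3, w4, w5, w6, w7, w8, w9, w10, w11, w12, w13, w14, w15, w16]
  ring

theorem van_10_4 (t : ℝ) : ∑ a ∈ range 11, dl t (4 + a) * (w t a * w t (10 - a)) = 0 := by
  simp only [sum_range_succ, sum_range_zero, zero_add, Nat.reduceAdd, Nat.reduceSub, add_zero,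
    Nat.sub_self, Nat.sub_zero, dl, Nat.reduceLT, if_true, if_false, Nat.reduceEqDiff, dd,
    w_zero, w1, w2, w3, w4, w5, w6, w7, w8, w9, w10, w11, w12, w13, w14, w15, w16]
  ring

theorem van_10_5 (t : ℝ) : ∑ a ∈ range 11, dl t (5 + a) * (w t a * w t (10 - a)) = 0 := by
  simp only [sum_range_succ, sum_range_zero, zero_add, Nat.reduceAdd, Nat.reduceSub, add_zero,
    Nat.sub_self, Nat.sub_zero, dl, Nat.reduceLT, if_true, if_false, Nat.reduceEqDiff, dd,
    w_zero, w1, w2, w3, w4, w5, w6, w7, w8, w9, w10, w11, w12, w13, w14, w15, w16]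
  ring

theorem van_10_6 (t : ℝ) : ∑ a ∈ range 11, dl t (6 + a) * (w t a * w t (10 - a)) = 0 := by
  simp only [sum_range_succ, sum_range_zero, zero_add, Nat.reduceAdd, Nat.reduceSub, add_zero,
    Nat.sub_self, Nat.sub_zero, dl, Nat.reduceLT, if_true, if_false, Nat.reduceEqDiff, dd,
    w_zero, w1, w2, w3, w4, w5, w6, w7, w8, w9, w10, w11, w12, w13, w14, w15, w16]
  ring

theorem van_11_0 (t : ℝ) : ∑ a ∈ range 12, dl t (0 + a) * (w t a * w t (11 - a)) = 0 := by
  simp only [sum_range_succ, sum_range_zero, zero_add, Nat.reduceAdd, Nat.reduceSub, add_zero,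
    Nat.sub_self, Nat.sub_zero, dl, Nat.reduceLT, if_true, if_false, Nat.reduceEqDiff, dd,
    w_zero, w1, w2, w3, w4, w5, w6, w7, w8, w9, w10, w11, w12, w13, w14, w15, w16]
  ring

theorem van_11_1 (t : ℝ) : ∑ a ∈ range 12, dl t (1 + a) * (w t a * w t (11 - a)) = 0 := by
  simp only [sum_range_succ, sum_range_zero, zero_add, Nat.reduceAdd, Nat.reduceSub, add_zero,
    Nat.sub_self, Nat.sub_zero, dl, Nat.reduceLT, if_true, if_false, Nat.reduceEqDiff, dd,
    w_zero, w1, w2, w3, w4, w5, w6, w7, w8, w9, w10, w11, w12, w13, w14, w15, w16]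
  ring

theorem van_11_2 (t : ℝ) : ∑ a ∈ range 12, dl t (2 + a) * (w t a * w t (11 - a)) = 0 := by
  simp only [sum_range_succ, sum_range_zero, zero_add, Nat.reduceAdd, Nat.reduceSub, add_zero,
    Nat.sub_self, Nat.sub_zero, dl, Nat.reduceLT, if_true, if_false, Nat.reduceEqDiff, dd,
    w_zero, w1, w2, w3, w4, w5, w6, w7, w8, w9, w10, w11, w12, w13, w14, w15, w16]
  ring

theorem van_11_3 (t : ℝ) : ∑ a ∈ range 12, dl t (3 + a) * (w t a * w t (11 - a)) = 0 := by
  simp only [sum_range_succ, sum_range_zero, zero_add, Nat.reduceAdd, Nat.reduceSub, add_zero,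
    Nat.sub_self, Nat.sub_zero, dl, Nat.reduceLT, if_true, if_false, Nat.reduceEqDiff, dd,
    w_zero, w1, w2, w3, w4, w5, w6, w7, w8, w9, w10, w11, w12, w13, w14, w15, w16]
  ring

theorem van_11_4 (t : ℝ) : ∑ a ∈ range 12, dl t (4 + a) * (w t a * w t (11 - a)) = 0 := by
  simp only [sum_range_succ, sum_range_zero, zero_add, Nat.reduceAdd, Nat.reduceSub, add_zero,
    Nat.sub_self, Nat.sub_zero, dl, Nat.reduceLT, if_true, if_false, Nat.reduceEqDiff, dd,
    w_zero, w1, w2, w3, w4, w5, w6, w7, w8, w9, w10, w11, w12, w13, w14, w15, w16]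
  ring

theorem van_11_5 (t : ℝ) : ∑ a ∈ range 12, dl t (5 + a) * (w t a * w t (11 - a)) = 0 := by
  simp only [sum_range_succ, sum_range_zero, zero_add, Nat.reduceAdd, Nat.reduceSub, add_zero,
    Nat.sub_self, Nat.sub_zero, dl, Nat.reduceLT, if_true, if_false, Nat.reduceEqDiff, dd,
    w_zero, w1, w2, w3, w4, w5, w6, w7, w8, w9, w10, w11, w12, w13, w14, w15, w16]
  ring

theorem van_12_0 (t : ℝ) : ∑ a ∈ range 13, dl t (0 + a) * (w t a * w t (12 - a)) = 0 := by
  simp only [sum_range_succ, sum_range_zero, zero_add, Nat.reduceAdd, Nat.reduceSub, add_zero,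
    Nat.sub_self, Nat.sub_zero, dl, Nat.reduceLT, if_true, if_false, Nat.reduceEqDiff, dd,
    w_zero, w1, w2, w3, w4, w5, w6, w7, w8, w9, w10, w11, w12, w13, w14, w15, w16]
  ring

theorem van_12_1 (t : ℝ) : ∑ a ∈ range 13, dl t (1 + a) * (w t a * w t (12 - a)) = 0 := by
  simp only [sum_range_succ, sum_range_zero, zero_add, Nat.reduceAdd, Nat.reduceSub, add_zero,
    Nat.sub_self, Nat.sub_zero, dl, Nat.reduceLT, if_true, if_false, Nat.reduceEqDiff, dd,
    w_zero, w1, w2, w3, w4, w5, w6, w7, w8, w9, w10, w11, w12, w13, w14, w15, w16]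
  ring

theorem van_12_2 (t : ℝ) : ∑ a ∈ range 13, dl t (2 + a) * (w t a * w t (12 - a)) = 0 := by
  simp only [sum_range_succ, sum_range_zero, zero_add, Nat.reduceAdd, Nat.reduceSub, add_zero,
    Nat.sub_self, Nat.sub_zero, dl, Nat.reduceLT, if_true, if_false, Nat.reduceEqDiff, dd,
    w_zero, w1, w2, w3, w4, w5, w6, w7, w8, w9, w10, w11, w12, w13, w14, w15, w16]
  ring

theorem van_12_3 (t : ℝ) : ∑ a ∈ range 13, dl t (3 + a) * (w t a * w t (12 - a)) = 0 := by
  simp only [sum_range_succ, sum_range_zero, zero_add, Nat.reduceAdd, Nat.reduceSub, add_zero,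
    Nat.sub_self, Nat.sub_zero, dl, Nat.reduceLT, if_true, if_false, Nat.reduceEqDiff, dd,
    w_zero, w1, w2, w3, w4, w5, w6, w7, w8, w9, w10, w11, w12, w13, w14, w15, w16]
  ring

theorem van_12_4 (t : ℝ) : ∑ a ∈ range 13, dl t (4 + a) * (w t a * w t (12 - a)) = 0 := by
  simp only [sum_range_succ, sum_range_zero, zero_add, Nat.reduceAdd, Nat.reduceSub, add_zero,
    Nat.sub_self, Nat.sub_zero, dl, Nat.reduceLT, if_true, if_false, Nat.reduceEqDiff, dd,
    w_zero, w1, w2, w3, w4, w5, w6, w7, w8, w9, w10, w11, w12, w13, w14, w15, w16]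
  ring

theorem van_13_0 (t : ℝ) : ∑ a ∈ range 14, dl t (0 + a) * (w t a * w t (13 - a)) = 0 := by
  simp only [sum_range_succ, sum_range_zero, zero_add, Nat.reduceAdd, Nat.reduceSub, add_zero,
    Nat.sub_self, Nat.sub_zero, dl, Nat.reduceLT, if_true, if_false, Nat.reduceEqDiff, dd,
    w_zero, w1, w2, w3, w4, w5, w6, w7, w8, w9, w10, w11, w12, w13, w14, w15, w16]
  ring

theorem van_13_1 (t : ℝ) : ∑ a ∈ range 14, dl t (1 + a) * (w t a * w t (13 - a)) = 0 := by
  simp only [sum_range_succ, sum_range_zero, zero_add, Nat.reduceAdd, Nat.reduceSub, add_zero,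
    Nat.sub_self, Nat.sub_zero, dl, Nat.reduceLT, if_true, if_false, Nat.reduceEqDiff, dd,
    w_zero, w1, w2, w3, w4, w5, w6, w7, w8, w9, w10, w11, w12, w13, w14, w15, w16]
  ring

theorem van_13_2 (t : ℝ) : ∑ a ∈ range 14, dl t (2 + a) * (w t a * w t (13 - a)) = 0 := by
  simp only [sum_range_succ, sum_range_zero, zero_add, Nat.reduceAdd, Nat.reduceSub, add_zero,
    Nat.sub_self, Nat.sub_zero, dl, Nat.reduceLT, if_true, if_false, Nat.reduceEqDiff, dd,
    w_zero, w1, w2, w3, w4, w5, w6, w7, w8, w9, w10, w11, w12, w13, w14, w15, w16]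
  ring

theorem van_13_3 (t : ℝ) : ∑ a ∈ range 14, dl t (3 + a) * (w t a * w t (13 - a)) = 0 := by
  simp only [sum_range_succ, sum_range_zero, zero_add, Nat.reduceAdd, Nat.reduceSub, add_zero,
    Nat.sub_self, Nat.sub_zero, dl, Nat.reduceLT, if_true, if_false, Nat.reduceEqDiff, dd,
    w_zero, w1, w2, w3, w4, w5, w6, w7, w8, w9, w10, w11, w12, w13, w14, w15, w16]
  ring

theorem van_14_0 (t : ℝ) : ∑ a ∈ range 15, dl t (0 + a) * (w t a * w t (14 - a)) = 0 := by
  simp only [sum_range_succ, sum_range_zero, zero_add, Nat.reduceAdd, Nat.reduceSub, add_zero,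
    Nat.sub_self, Nat.sub_zero, dl, Nat.reduceLT, if_true, if_false, Nat.reduceEqDiff, dd,
    w_zero, w1, w2, w3, w4, w5, w6, w7, w8, w9, w10, w11, w12, w13, w14, w15, w16]
  ring

theorem van_14_1 (t : ℝ) : ∑ a ∈ range 15, dl t (1 + a) * (w t a * w t (14 - a)) = 0 := by
  simp only [sum_range_succ, sum_range_zero, zero_add, Nat.reduceAdd, Nat.reduceSub, add_zero,
    Nat.sub_self, Nat.sub_zero, dl, Nat.reduceLT, if_true, if_false, Nat.reduceEqDiff, dd,
    w_zero, w1, w2, w3, w4, w5, w6, w7, w8, w9, w10, w11, w12, w13, w14, w15, w16]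
  ring

theorem van_14_2 (t : ℝ) : ∑ a ∈ range 15, dl t (2 + a) * (w t a * w t (14 - a)) = 0 := by
  simp only [sum_range_succ, sum_range_zero, zero_add, Nat.reduceAdd, Nat.reduceSub, add_zero,
    Nat.sub_self, Nat.sub_zero, dl, Nat.reduceLT, if_true, if_false, Nat.reduceEqDiff, dd,
    w_zero, w1, w2, w3, w4, w5, w6, w7, w8, w9, w10, w11, w12, w13, w14, w15, w16]
  ring

theorem van_15_0 (t : ℝ) : ∑ a ∈ range 16, dl t (0 + a) * (w t a * w t (15 - a)) = 0 := by
  simp only [sum_range_succ, sum_range_zero, zero_add, Nat.reduceAdd, Nat.reduceSub, add_zero,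
    Nat.sub_self, Nat.sub_zero, dl, Nat.reduceLT, if_true, if_false, Nat.reduceEqDiff, dd,
    w_zero, w1, w2, w3, w4, w5, w6, w7, w8, w9, w10, w11, w12, w13, w14, w15, w16]
  ring

theorem van_15_1 (t : ℝ) : ∑ a ∈ range 16, dl t (1 + a) * (w t a * w t (15 - a)) = 0 := by
  simp only [sum_range_succ, sum_range_zero, zero_add, Nat.reduceAdd, Nat.reduceSub, add_zero,
    Nat.sub_self, Nat.sub_zero, dl, Nat.reduceLT, if_true, if_false, Nat.reduceEqDiff, dd,
    w_zero, w1, w2, w3, w4, w5, w6, w7, w8, w9, w10, w11, w12, w13, w14, w15, w16]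
  ring

theorem van_16_0 (t : ℝ) : ∑ a ∈ range 17, dl t (0 + a) * (w t a * w t (16 - a)) = 0 := by
  simp only [sum_range_succ, sum_range_zero, zero_add, Nat.reduceAdd, Nat.reduceSub, add_zero,
    Nat.sub_self, Nat.sub_zero, dl, Nat.reduceLT, if_true, if_false, Nat.reduceEqDiff, dd,
    w_zero, w1, w2, w3, w4, w5, w6, w7, w8, w9, w10, w11, w12, w13, w14, w15, w16]
  ring

end Pool.Agent.MPcdddd3
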