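import Mathlib
import Pool.Agent.Lib.MP_cdddd3_co.Vanish

set_option autoImplicit false
set_option linter.unusedSimpArgs false

namespace Pool.Agent.MPcdddd3

open MvPolynomial Finset

variable {n : ℕ}

theorem van (t : ℝ) (k p : ℕ) (hk : 9 ≤ k) (hp : k + p ≤ 16) :
    ∑ a ∈ range (k + 1), dl t (p + a) * (w t a * w t (k - a)) = 0 := by
  have hk' : k ≤ 16 := by omega
  have hp' : p ≤ 7 := by omega
  interval_cases k <;> interval_cases p <;>
  first
  | exact van_9_0 t
  | exact van_9_1 t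
  | exact van_9_2 t
  | exact van_9_3 t
  | exact van_9_4 t
  | exact van_9_5 t
  | exact van_9_6 t
  | exact van_9_7 t
  | exact van_10_0 t
  | exact van_10_1 t
  | exact van_10_2 t
  | exact van_10_3 t
  | exact van_10_4 t
  | exact van_10_5 t
  | exact van_10_6 t
  | exact van_11_0 t
  | exact van_11_1 t
  | exact van_11_2 t
  | exact van_11_3 t
  | exact van_11_4 t
  | exact van_11_5 t
  | exact van_12_0 t
  | exact van_12_1 t
  | exact van_12_2 t
  | exact van_12_3 t
  | exact van_12_4 t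
  | exact van_13_0 t
  | exact van_13_1 t
  | exact van_13_2 t
  | exact van_13_3 t
  | exact van_14_0 t
  | exact van_14_1 t
  | exact van_14_2 t
  | exact van_15_0 t
  | exact van_15_1 t
  | exact van_16_0 t
  | omega

theorem LS_X_pow (t : ℝ) (k p : ℕ) (hk : 9 ≤ k) (hp : k + p ≤ 16) :
    ∑ r ∈ range 17, dl t r * (W t k * Polynomial.X ^ p).coeff r = 0 := by
  have e : 17 = p + ((k + 1) + (16 - p - k)) := by omega
  rw [e, Finset.sum_range_add, Finset.sum_range_add]
  have a1 : ∑ x ∈ range p, dl t x * (W t k * Polynomial.X ^ p).coeff x = 0 := by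
    refine Finset.sum_eq_zero fun x hx => ?_
    rw [Finset.mem_range] at hx
    rw [Polynomial.coeff_mul_X_pow', if_neg (by omega), mul_zero]
  have a2 : ∑ x ∈ range (16 - p - k), dl t (p + (k + 1 + x)) *
      (W t k * Polynomial.X ^ p).coeff (p + (k + 1 + x)) = 0 := by
    refine Finset.sum_eq_zero fun x hx => ?_
    rw [Polynomial.coeff_mul_X_pow', if_pos (by omega), coeff_W, if_neg (by omega), mul_zero]
  have a3 : ∑ x ∈ range (k + 1), dl t (p + x) * (W t k * Polynomial.X ^ p).coeff (p + x) = 0 := by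
    rw [← van t k p hk hp]
    refine Finset.sum_congr rfl fun x hx => ?_
    rw [Finset.mem_range] at hx
    rw [Polynomial.coeff_mul_X_pow', if_pos (by omega), coeff_W, Nat.add_sub_cancel_left,
      if_pos (by omega)]
  rw [a1, a2, a3]; simp

theorem two_mul_L (τ : ℝ) (m : Fin n →₀ ℕ) (hm : ∑ i, m i = 16) :
    2 * L τ (∏ i, W τ (m i)) = ∑ r ∈ range 17, dl τ r * (∏ i, W τ (m i)).coeff r := by
  have h := coeff_prod_W_symm τ m hm
  have h1 := h 1 (by norm_num)
  have h2 := h 2 (by norm_num)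
  have h3 := h 3 (by norm_num)
  have h4 := h 4 (by norm_num)
  have h5 := h 5 (by norm_num)
  have h6 := h 6 (by norm_num)
  have h7 := h 7 (by norm_num)
  have h8 := h 8 (by norm_num)
  simp only [Nat.reduceAdd, Nat.reduceSub, Nat.sub_self] at h1 h2 h3 h4 h5 h6 h7 h8
  unfold L
  simp only [sum_range_succ, sum_range_zero, zero_add, Nat.reduceAdd, Nat.reduceSub, add_zero,
    Nat.sub_self, Nat.sub_zero, dl, Nat.reduceLT, if_true, if_false, Nat.reduceEqDiff]
  linear_combination (dd τ 1) * h1 + (dd τ 2) * h2 + (dd τ 3) * h3 + (dd τ 4) * h4 +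
    (dd τ 5) * h5 + (dd τ 6) * h6 + (dd τ 7) * h7 + (dd τ 8) * h8

theorem L_eq_zero (τ : ℝ) (m : Fin n →₀ ℕ) (hm : ∑ i, m i = 16) (i : Fin n) (hi : 9 ≤ m i) :
    L τ (∏ i, W τ (m i)) = 0 := by
  have h0 := two_mul_L τ m hm
  have h1 : ∏ l, W τ (m l) = W τ (m i) * ∏ l ∈ univ.erase i, W τ (m l) :=
    (Finset.mul_prod_erase _ _ (Finset.mem_univ i)).symm
  have hs : m i + ∑ l ∈ univ.erase i, m l = 16 := by
    rw [Finset.add_sum_erase _ _ (Finset.mem_univ i), hm]
  set V := ∏ l ∈ univ.erase i, W τ (m l) with hV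
  have hdeg : V.natDegree < 17 - m i := by
    have : V.natDegree ≤ ∑ l ∈ univ.erase i, m l :=
      (Polynomial.natDegree_prod_le _ _).trans (Finset.sum_le_sum fun l _ => natDegree_W τ _)
    omega
  have hV2 : W τ (m i) * V = ∑ p ∈ range (17 - m i),
      Polynomial.C (V.coeff p) * (W τ (m i) * Polynomial.X ^ p) := by
    conv_lhs => rw [Polynomial.as_sum_range' V (17 - m i) hdeg]
    rw [Finset.mul_sum]
    refine Finset.sum_congr rfl fun p _ => ?_
    rw [← Polynomial.C_mul_X_pow_eq_monomial]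
    ring
  have h2 : ∑ r ∈ range 17, dl τ r * (W τ (m i) * V).coeff r = 0 := by
    rw [hV2]
    simp only [Polynomial.finsetSum_coeff, Polynomial.coeff_C_mul, Finset.mul_sum]
    rw [Finset.sum_comm]
    refine Finset.sum_eq_zero fun p hp => ?_
    rw [Finset.mem_range] at hp
    have := LS_X_pow τ (m i) p hi (by omega)
    calc ∑ r ∈ range 17, dl τ r * (V.coeff p * (W τ (m i) * Polynomial.X ^ p).coeff r)
        = V.coeff p * ∑ r ∈ range 17, dl τ r * (W τ (m i) * Polynomial.X ^ p).coeff r := by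
          rw [Finset.mul_sum]
          exact Finset.sum_congr rfl fun r _ => by ring
      _ = 0 := by rw [this, mul_zero]
  rw [h1, h2] at h0
  rw [h1]
  linarith

theorem J_support (τ : ℝ) (m : Fin n →₀ ℕ) (hm : coeff m (J τ) ≠ 0) :
    ∑ i, m i = 16 ∧ ∀ i, m i ≤ 8 := by
  rw [coeff_J] at hm
  by_cases h : ∑ i, m i = 16
  · refine ⟨h, fun i => ?_⟩
    by_contra hi
    rw [if_pos h, L_eq_zero τ m h i (by omega), mul_zero] at hm
    exact hm rfl
  · rw [if_neg h] at hm
    exact absurd rfl hm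

theorem J_top (τ : ℝ) :
    40320 * L τ (W τ 8 * W τ 8) = (∏ a ∈ range 8, (2 * τ + a)) * ∏ a ∈ range 8, (τ + a) := by
  unfold L
  simp only [sum_range_succ, sum_range_zero, zero_add, prod_range_succ, prod_range_zero, one_mul,
    Polynomial.coeff_mul, Finset.Nat.sum_antidiagonal_eq_sum_range_succ_mk, coeff_W,
    Nat.reduceAdd, Nat.reduceSub, add_zero, Nat.sub_self, Nat.sub_zero, Nat.reduceLeDiff,
    if_true, if_false, mul_zero, zero_mul, dd, w_zero, w1, w2, w3, w4, w5, w6, w7, w8,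
    zero_le, le_refl, Nat.cast_ofNat, Nat.cast_zero, Nat.cast_one]
  ring

end Pool.Agent.MPcdddd3
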