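import Mathlib
import Pool.Agent.Lib.MP_cdddd3_co.Support

set_option autoImplicit false
set_option linter.unusedSimpArgs false

namespace Pool.Agent.MPcdddd3

open Finset

section series

/-- `∑ a + b = M, w_a(τ) w_b(-τ) = δ` -/
theorem F_mul_H (τ : ℝ) :
    (PowerSeries.mk (w τ)) * (PowerSeries.mk (w (-τ))) = (1 : PowerSeries ℝ) := by
  have hd : ∀ s : ℝ, (1 - PowerSeries.X) * (PowerSeries.derivative ℝ (PowerSeries.mk (w s)))
      = PowerSeries.C s * PowerSeries.mk (w s) := by
    intro s
    ext k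
    rw [sub_mul, one_mul, map_sub, PowerSeries.coeff_derivative, PowerSeries.coeff_mk,
      PowerSeries.coeff_C_mul, PowerSeries.coeff_mk]
    have h1 := w_succ s k
    cases k with
    | zero =>
      rw [PowerSeries.coeff_zero_X_mul]
      push_cast at h1 ⊢
      linarith
    | succ k =>
      rw [PowerSeries.coeff_succ_X_mul, PowerSeries.coeff_derivative, PowerSeries.coeff_mk]
      push_cast at h1 ⊢
      linarith
  have h1 := hd τ
  have h2 := hd (-τ)
  apply PowerSeries.derivative.ext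
  · have h3 : (1 - PowerSeries.X) * (PowerSeries.derivative ℝ
        (PowerSeries.mk (w τ) * PowerSeries.mk (w (-τ)))) = 0 := by
      rw [Derivation.leibniz]
      simp only [smul_eq_mul]
      rw [map_neg] at h2
      linear_combination (PowerSeries.mk (w τ)) * h2 + (PowerSeries.mk (w (-τ))) * h1
    have h4 : (1 - PowerSeries.X : PowerSeries ℝ) ≠ 0 := by
      intro h
      have := congrArg (PowerSeries.coeff 0) h
      simp at this
    rcases mul_eq_zero.mp h3 with h | h
    · exact absurd h h4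
    · rw [h]; simp
  · simp [w_zero]

theorem conv_w (τ : ℝ) (M : ℕ) :
    ∑ x ∈ HasAntidiagonal.antidiagonal M, w τ x.1 * w (-τ) x.2 = if M = 0 then 1 else 0 := by
  have := congrArg (PowerSeries.coeff M) (F_mul_H τ)
  rw [PowerSeries.coeff_mul] at this
  simp only [PowerSeries.coeff_mk, PowerSeries.coeff_one] at this
  exact this

theorem mk_W (τ : ℝ) : (PowerSeries.mk (W τ) : PowerSeries (Polynomial ℝ))
    = PowerSeries.mk (fun a => Polynomial.C (w τ a) * Polynomial.X ^ a)
      * PowerSeries.mk (fun a => Polynomial.C (w τ a)) := by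
  ext1 k
  rw [PowerSeries.coeff_mul, PowerSeries.coeff_mk, Finset.Nat.sum_antidiagonal_eq_sum_range_succ_mk]
  unfold W
  refine Finset.sum_congr rfl fun a _ => ?_
  simp only [PowerSeries.coeff_mk, map_mul]
  ring

theorem W_mul_W (τ : ℝ) : (PowerSeries.mk (W τ)) * (PowerSeries.mk (W (-τ)))
    = (1 : PowerSeries (Polynomial ℝ)) := by
  rw [mk_W, mk_W]
  have h1 : (PowerSeries.mk (fun a => Polynomial.C (w τ a) * Polynomial.X ^ a))
      * (PowerSeries.mk (fun a => Polynomial.C (w (-τ) a) * Polynomial.X ^ a))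
      = (1 : PowerSeries (Polynomial ℝ)) := by
    ext1 k
    rw [PowerSeries.coeff_mul, PowerSeries.coeff_one]
    simp only [PowerSeries.coeff_mk]
    have h := conv_w τ k
    have : ∀ x ∈ HasAntidiagonal.antidiagonal k, (Polynomial.C (w τ x.1) * Polynomial.X ^ x.1)
        * (Polynomial.C (w (-τ) x.2) * Polynomial.X ^ x.2)
        = Polynomial.C (w τ x.1 * w (-τ) x.2) * Polynomial.X ^ k := by
      intro x hx
      rw [HasAntidiagonal.mem_antidiagonal] at hx
      rw [← hx, pow_add, map_mul]; ring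
    rw [Finset.sum_congr rfl this, ← Finset.sum_mul, ← map_sum, h]
    split_ifs with h0 <;> simp [h0]
  have h2 : (PowerSeries.mk (fun a => Polynomial.C (w τ a)))
      * (PowerSeries.mk (fun a => Polynomial.C (w (-τ) a)))
      = (1 : PowerSeries (Polynomial ℝ)) := by
    ext1 k
    rw [PowerSeries.coeff_mul, PowerSeries.coeff_one]
    simp only [PowerSeries.coeff_mk]
    have h := conv_w τ k
    simp only [← map_mul]
    rw [← map_sum, h]
    split_ifs with h0 <;> simp
  linear_combination (PowerSeries.mk (fun a => Polynomial.C (w τ a)))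
      * (PowerSeries.mk (fun a => Polynomial.C (w (-τ) a))) * h1 + h2

theorem conv_W (τ : ℝ) (M : ℕ) :
    ∑ b ∈ range (M + 1), W τ (M - b) * W (-τ) b = if M = 0 then 1 else 0 := by
  have := congrArg (PowerSeries.coeff M) (W_mul_W τ)
  rw [PowerSeries.coeff_mul, Finset.Nat.sum_antidiagonal_eq_sum_range_succ_mk] at this
  simp only [PowerSeries.coeff_mk, PowerSeries.coeff_one] at this
  rw [← this, ← Finset.sum_range_reflect]
  refine Finset.sum_congr rfl fun b hb => ?_
  rw [Finset.mem_range] at hb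
  have e1 : M + 1 - 1 - b = M - b := by omega
  have e2 : M - (M - b) = b := by omega
  rw [e1, e2]

end series

section vander

open MvPolynomial

theorem vand_eq : (∏ i : Fin 16, ∏ j : Fin 16,
      (if i < j then X i - X j else (1 : MvPolynomial (Fin 16) ℝ)))
    = (Matrix.vandermonde (fun i : Fin 16 => (X i : MvPolynomial (Fin 16) ℝ))).det := by
  rw [Matrix.det_vandermonde]
  have h1 : ∀ i : Fin 16, ∏ j ∈ Finset.Ioi i, (X j - X i : MvPolynomial (Fin 16) ℝ)
      = ∏ j : Fin 16, (if i < j then X j - X i else (1 : MvPolynomial (Fin 16) ℝ)) := by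
    intro i
    rw [Finset.prod_ite]
    simp only [Finset.prod_const_one, mul_one]
    congr 1
    ext j
    simp
  rw [Finset.prod_congr rfl fun i _ => h1 i]
  have h2 : ∀ i j : Fin 16, (if i < j then X i - X j else (1 : MvPolynomial (Fin 16) ℝ))
      = (((if i < j then -1 else 1 : ℤ)) : MvPolynomial (Fin 16) ℝ)
        * (if i < j then X j - X i else (1 : MvPolynomial (Fin 16) ℝ)) := by
    intro i j
    split_ifs <;> simp
  simp only [h2, Finset.prod_mul_distrib]
  have h3 : ∏ i : Fin 16, ∏ j : Fin 16, (if i < j then -1 else 1 : ℤ) = 1 := by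
    decide +kernel
  have h4 : ∏ i : Fin 16, ∏ j : Fin 16, (((if i < j then -1 else 1 : ℤ)) : MvPolynomial (Fin 16) ℝ)
      = 1 := by
    have := congrArg (fun z : ℤ => (z : MvPolynomial (Fin 16) ℝ)) h3
    simpa only [Int.cast_prod, Int.cast_one] using this
  rw [h4, one_mul]

/-- the exponents `μ + δ` -/
def ee : Fin 16 → ℕ := ![17, 16, 15, 14, 13, 12, 11, 10, 7, 6, 5, 4, 3, 2, 1, 0]

noncomputable def Wz (τ : ℝ) (a b : ℕ) : Polynomial ℝ := if b ≤ a then W τ (a - b) else 0

theorem L_zero (τ : ℝ) : L τ 0 = 0 := by simp [L]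

theorem L_add (τ : ℝ) (P Q : Polynomial ℝ) : L τ (P + Q) = L τ P + L τ Q := by
  simp [L, mul_add, Finset.sum_add_distrib]

theorem L_sum (τ : ℝ) {ι : Type*} (s : Finset ι) (f : ι → Polynomial ℝ) :
    L τ (∑ i ∈ s, f i) = ∑ i ∈ s, L τ (f i) := by
  classical
  induction s using Finset.induction_on with
  | empty => simp [L_zero]
  | insert a s ha ih => rw [Finset.sum_insert ha, Finset.sum_insert ha, L_add, ih]

theorem L_int_mul (τ : ℝ) (z : ℤ) (P : Polynomial ℝ) :
    L τ ((z : Polynomial ℝ) * P) = (z : ℝ) * L τ P := by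
  have : (z : Polynomial ℝ) = Polynomial.C (z : ℝ) := by simp
  unfold L
  rw [this, Finset.mul_sum]
  refine Finset.sum_congr rfl fun j _ => ?_
  rw [Polynomial.coeff_C_mul]; ring

theorem coeff_J_mul_monomial (τ : ℝ) (b : Fin 16 → ℕ) (hb : ∑ l, b l = 120) :
    coeff (Finsupp.equivFunOnFinite.symm ee)
      (J τ * monomial (Finsupp.equivFunOnFinite.symm b) (1 : ℝ))
    = 40320 * L τ (∏ l, Wz τ (ee l) (b l)) := by
  rw [coeff_mul_monomial']
  by_cases h : ∀ l, b l ≤ ee l
  · have h' : Finsupp.equivFunOnFinite.symm b ≤ Finsupp.equivFunOnFinite.symm ee := by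
      intro l; simpa using h l
    rw [if_pos h', mul_one, coeff_J, if_pos]
    · congr 2
      refine Finset.prod_congr rfl fun l _ => ?_
      rw [Wz, if_pos (h l)]
      simp
    · have h1 : ∑ l, (ee l - b l) + ∑ l, b l = ∑ l, ee l := by
        rw [← Finset.sum_add_distrib]
        refine Finset.sum_congr rfl fun l _ => ?_
        have := h l
        omega
      have h2 : ∑ l, ee l = 136 := by decide
      simp only [Finsupp.coe_tsub, Pi.sub_apply, Finsupp.equivFunOnFinite_symm_apply_apply]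
      omega
  · have h' : ¬ (Finsupp.equivFunOnFinite.symm b ≤ Finsupp.equivFunOnFinite.symm ee) := by
      intro h2
      exact h fun l => by simpa using h2 l
    rw [if_neg h']
    push Not at h
    obtain ⟨l, hl⟩ := h
    rw [Finset.prod_eq_zero (Finset.mem_univ l) (by rw [Wz, if_neg (by omega)]), L_zero, mul_zero]

theorem coeff_J_mul_vand (τ : ℝ) :
    coeff (Finsupp.equivFunOnFinite.symm ee)
      (J τ * (Matrix.vandermonde (fun i : Fin 16 => (X i : MvPolynomial (Fin 16) ℝ))).det)
    = 40320 * L τ (Matrix.det (Matrix.of fun l i : Fin 16 => Wz τ (ee l) i)) := by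
  rw [Matrix.det_apply', Matrix.det_apply', L_sum, Finset.mul_sum, coeff_sum, Finset.mul_sum]
  refine Finset.sum_congr rfl fun σ _ => ?_
  have h1 : (∏ i : Fin 16, Matrix.vandermonde (fun i : Fin 16 => (X i : MvPolynomial (Fin 16) ℝ))
      (σ i) i) = monomial (Finsupp.equivFunOnFinite.symm fun l => ((σ.symm l : Fin 16) : ℕ)) 1 := by
    rw [monomial_eq, Finsupp.prod_fintype _ _ (by simp)]
    simp only [Matrix.vandermonde_apply, map_one, one_mul,
      Finsupp.equivFunOnFinite_symm_apply_apply]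
    rw [← Equiv.prod_comp σ (fun l : Fin 16 => (X l : MvPolynomial (Fin 16) ℝ)
      ^ ((σ.symm l : Fin 16) : ℕ))]
    simp
  have h2 : (∏ i : Fin 16, (Matrix.of fun l i : Fin 16 => Wz τ (ee l) i) (σ i) i)
      = ∏ l : Fin 16, Wz τ (ee l) ((σ.symm l : Fin 16) : ℕ) := by
    rw [← Equiv.prod_comp σ (fun l : Fin 16 => Wz τ (ee l) ((σ.symm l : Fin 16) : ℕ))]
    simp
  have h3 : ∑ l : Fin 16, ((σ.symm l : Fin 16) : ℕ) = 120 := by
    rw [Equiv.sum_comp σ.symm (fun l : Fin 16 => (l : ℕ))]
    decide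
  have h4 : (((Equiv.Perm.sign σ : ℤˣ) : ℤ) : MvPolynomial (Fin 16) ℝ)
      = C ((((Equiv.Perm.sign σ : ℤˣ) : ℤ)) : ℝ) := by simp
  rw [h1, h2, L_int_mul, h4, mul_left_comm, coeff_C_mul, coeff_J_mul_monomial _ _ h3]
  ring

end vander

section determinant

theorem W_zero (τ : ℝ) : W τ 0 = 1 := by simp [W, w_zero]

variable {R : Type*} [CommRing R]

/-- `W_{a-b}` with zero for `b > a` -/
def sh (f : ℕ → R) (a b : ℕ) : R := if b ≤ a then f (a - b) else 0

theorem full_row (f h : ℕ → R)
    (hc : ∀ M, ∑ b ∈ range (M + 1), f (M - b) * h b = if M = 0 then 1 else 0) (a k : ℕ) :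
    ∑ i ∈ range (a + 1), sh f a i * sh h i k = if a = k then 1 else 0 := by
  by_cases hk : k ≤ a
  · have e : a + 1 = k + (a - k + 1) := by omega
    rw [e, Finset.sum_range_add]
    have h1 : ∑ x ∈ range k, sh f a x * sh h x k = 0 := by
      refine Finset.sum_eq_zero fun x hx => ?_
      rw [Finset.mem_range] at hx
      rw [sh, sh, if_neg (show ¬ k ≤ x by omega), mul_zero]
    have h2 : ∑ x ∈ range (a - k + 1), sh f a (k + x) * sh h (k + x) k
        = ∑ b ∈ range (a - k + 1), f (a - k - b) * h b := by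
      refine Finset.sum_congr rfl fun x hx => ?_
      rw [Finset.mem_range] at hx
      rw [sh, if_pos (by omega), sh, if_pos (by omega), Nat.add_sub_cancel_left, Nat.sub_sub]
    rw [h1, h2, hc, zero_add]
    by_cases h3 : a = k
    · rw [if_pos (by omega), if_pos h3]
    · rw [if_neg (by omega), if_neg h3]
  · rw [if_neg (by omega)]
    refine Finset.sum_eq_zero fun x hx => ?_
    rw [Finset.mem_range] at hx
    rw [sh, sh, if_neg (show ¬ k ≤ x by omega), mul_zero]

theorem short_row (f h : ℕ → R)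
    (hc : ∀ M, ∑ b ∈ range (M + 1), f (M - b) * h b = if M = 0 then 1 else 0)
    (a k : ℕ) (ha : a ≤ 15) :
    ∑ i ∈ range 16, sh f a i * sh h i k = if a = k then 1 else 0 := by
  rw [← full_row f h hc a k]
  have e : 16 = (a + 1) + (15 - a) := by omega
  rw [e, Finset.sum_range_add]
  have : ∑ x ∈ range (15 - a), sh f a (a + 1 + x) * sh h (a + 1 + x) k = 0 := by
    refine Finset.sum_eq_zero fun x _ => ?_
    rw [sh, if_neg (by omega), zero_mul]
  rw [this, add_zero]

theorem row16 (f h : ℕ → R)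
    (hc : ∀ M, ∑ b ∈ range (M + 1), f (M - b) * h b = if M = 0 then 1 else 0) (hf : f 0 = 1)
    (k : ℕ) (hk : k ≤ 15) :
    ∑ i ∈ range 16, sh f 16 i * sh h i k = - h (16 - k) := by
  have h' := full_row f h hc 16 k
  rw [Finset.sum_range_succ, if_neg (by omega)] at h'
  have e : sh f 16 16 * sh h 16 k = h (16 - k) := by
    rw [sh, if_pos le_rfl, Nat.sub_self, hf, one_mul, sh, if_pos (by omega)]
  rw [e] at h'
  linear_combination h'

theorem row17 (f h : ℕ → R)
    (hc : ∀ M, ∑ b ∈ range (M + 1), f (M - b) * h b = if M = 0 then 1 else 0) (hf : f 0 = 1)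
    (k : ℕ) (hk : k ≤ 15) :
    ∑ i ∈ range 16, sh f 17 i * sh h i k = - (f 1 * h (16 - k) + h (17 - k)) := by
  have h' := full_row f h hc 17 k
  rw [Finset.sum_range_succ, Finset.sum_range_succ, if_neg (by omega)] at h'
  have e : sh f 17 16 * sh h 16 k = f 1 * h (16 - k) := by
    rw [sh, if_pos (by norm_num), sh, if_pos (by omega)]
  have e' : sh f 17 17 * sh h 17 k = h (17 - k) := by
    rw [sh, if_pos le_rfl, Nat.sub_self, hf, one_mul, sh, if_pos (by omega)]
  rw [e, e'] at h'
  linear_combination h'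

/-- the column order `9, 8, 15, …, 10, 7, …, 0` -/
def piFun : Fin 16 → Fin 16 := ![9, 8, 15, 14, 13, 12, 11, 10, 7, 6, 5, 4, 3, 2, 1, 0]

def piInv : Fin 16 → Fin 16 := ![15, 14, 13, 12, 11, 10, 9, 8, 1, 0, 7, 6, 5, 4, 3, 2]

def piPerm : Equiv.Perm (Fin 16) where
  toFun := piFun
  invFun := piInv
  left_inv := by unfold Function.LeftInverse; decide
  right_inv := by unfold Function.RightInverse Function.LeftInverse; decide

theorem sign_piPerm : Equiv.Perm.sign piPerm = 1 := by
  decide +kernel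

theorem ee_row : ∀ l : Fin 16, ¬ (l : ℕ) < 2 → ee l = ((piPerm l : Fin 16) : ℕ) := by decide

theorem ee_zero : ee 0 = 17 := rfl

theorem ee_one : ee 1 = 16 := rfl

theorem pi_zero : ((piPerm 0 : Fin 16) : ℕ) = 9 := rfl

theorem pi_one : ((piPerm 1 : Fin 16) : ℕ) = 8 := rfl

theorem det_sq_two (N : Matrix (Fin 16) (Fin 16) R) :
    (Matrix.toSquareBlockProp N fun i => ((i : ℕ) < 2)).det = N 0 0 * N 1 1 - N 0 1 * N 1 0 := by
  let e2 : Fin 2 ≃ {i : Fin 16 // (i : ℕ) < 2} :=
    { toFun := fun i => ⟨⟨i, by omega⟩, i.2⟩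
      invFun := fun i => ⟨i.1, i.2⟩
      left_inv := fun i => rfl
      right_inv := fun i => rfl }
  rw [← Matrix.det_submatrix_equiv_self e2, Matrix.det_fin_two]
  rfl

theorem det_B (h : ℕ → R) (hh : h 0 = 1) :
    Matrix.det (Matrix.of fun i k : Fin 16 => sh h i k) = 1 := by
  rw [Matrix.det_of_isLowerTriangular]
  · refine Finset.prod_eq_one fun i _ => ?_
    simp [sh, hh]
  · intro i j hij
    have : (i : ℕ) < (j : ℕ) := by
      have : i < j := by simpa using hij
      exact this
    simp only [Matrix.of_apply, sh]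
    rw [if_neg (by omega)]

theorem det_A_gen (f h : ℕ → R)
    (hc : ∀ M, ∑ b ∈ range (M + 1), f (M - b) * h b = if M = 0 then 1 else 0) (hf : f 0 = 1)
    (hh : h 0 = 1) : Matrix.det (Matrix.of fun l i : Fin 16 => sh f (ee l) i)
    = h 8 * h 8 - h 7 * h 9 := by
  set A : Matrix (Fin 16) (Fin 16) R := Matrix.of fun l i : Fin 16 => sh f (ee l) i
    with hA
  set B : Matrix (Fin 16) (Fin 16) R := Matrix.of fun i k : Fin 16 => sh h i k
    with hB
  have hAB : A.det = (A * B).det := by rw [Matrix.det_mul, hB, det_B h hh, mul_one]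
  have hperm : ((A * B).submatrix id piPerm).det = (A * B).det := by
    rw [Matrix.det_permute', sign_piPerm]; simp
  rw [hAB, ← hperm]
  set N := (A * B).submatrix id piPerm with hN
  have entry : ∀ l c : Fin 16, N l c = ∑ i ∈ range 16, sh f (ee l) i * sh h i (piPerm c : Fin 16) := by
    intro l c
    rw [hN, Matrix.submatrix_apply, Matrix.mul_apply, id,
      ← Fin.sum_univ_eq_sum_range (fun i => sh f (ee l) i * sh h i ((piPerm c : Fin 16) : ℕ)) 16]
    rfl
  have hrow := ee_row
  have hrow' : ∀ l c : Fin 16, ¬ (l : ℕ) < 2 → N l c = if l = c then 1 else 0 := by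
    intro l c hl
    rw [entry, short_row f h hc _ _ (by rw [hrow l hl]; have := (piPerm l).2; omega), hrow l hl]
    by_cases h : l = c
    · rw [if_pos h, h, if_pos rfl]
    · rw [if_neg h, if_neg]
      intro h'
      exact h (piPerm.injective (Fin.ext h'))
  rw [Matrix.twoBlockTriangular_det N (fun i => (i : ℕ) < 2)
    (fun i hi j hj => by
      rw [hrow' i j hi, if_neg]
      rintro rfl
      exact hi hj)]
  have h2 : (Matrix.toSquareBlockProp N fun i => ¬ ((i : ℕ) < 2)).det = 1 := by
    have : (Matrix.toSquareBlockProp N fun i => ¬ ((i : ℕ) < 2)) = 1 := by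
      ext1 i j
      rw [Matrix.toSquareBlockProp_def, Matrix.of_apply, hrow' i j i.2, Matrix.one_apply]
      simp only [Subtype.ext_iff]
    rw [this, Matrix.det_one]
  rw [h2, mul_one]
  rw [det_sq_two]
  have n00 : N 0 0 = - (f 1 * h 7 + h 8) := by
    rw [entry, ee_zero, pi_zero, row17 f h hc hf 9 (by norm_num)]
  have n01 : N 0 1 = - (f 1 * h 8 + h 9) := by
    rw [entry, ee_zero, pi_one, row17 f h hc hf 8 (by norm_num)]
  have n10 : N 1 0 = - h 7 := by
    rw [entry, ee_one, pi_zero, row16 f h hc hf 9 (by norm_num)]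
  have n11 : N 1 1 = - h 8 := by
    rw [entry, ee_one, pi_one, row16 f h hc hf 8 (by norm_num)]
  rw [n00, n01, n10, n11]
  ring

theorem det_A (τ : ℝ) : Matrix.det (Matrix.of fun l i : Fin 16 => Wz τ (ee l) i)
    = W (-τ) 8 * W (-τ) 8 - W (-τ) 7 * W (-τ) 9 :=
  det_A_gen (W τ) (W (-τ)) (conv_W τ) (W_zero τ) (W_zero (-τ))

/-- the Schur coefficient of `J` at `(2^8)` -/
theorem schur_coeff (τ : ℝ) :
    MvPolynomial.coeff (Finsupp.equivFunOnFinite.symm ee)
      (J τ * (∏ i : Fin 16, ∏ j : Fin 16,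
        (if i < j then MvPolynomial.X i - MvPolynomial.X j
          else (1 : MvPolynomial (Fin 16) ℝ))))
    = 40320 * L τ (W (-τ) 8 * W (-τ) 8 - W (-τ) 7 * W (-τ) 9) := by
  rw [vand_eq, coeff_J_mul_vand, det_A]

end determinant

end Pool.Agent.MPcdddd3
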