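import Mathlib

set_option autoImplicit false
set_option linter.unusedSimpArgs false

namespace Pool.Agent.MPcdddd3

open Finset

/-- for a polynomial with only real zeros, moving off the real axis increases the modulus -/
theorem real_roots_ineq (Q : Polynomial ℂ) (h : ∀ z : ℂ, Q.eval z = 0 → z.im = 0) (x y : ℝ) :
    ‖Q.eval (x : ℂ)‖ ≤ ‖Q.eval ((x : ℂ) + y * Complex.I)‖ := by
  by_cases hQ : Q = 0
  · simp [hQ]
  have hs : Q.Splits := IsAlgClosed.splits Q
  rw [hs.eval_eq_prod_roots, hs.eval_eq_prod_roots, norm_mul, norm_mul]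
  refine mul_le_mul_of_nonneg_left ?_ (norm_nonneg _)
  have key : ∀ s : Multiset ℂ, (∀ r ∈ s, r.im = 0) →
      ‖(s.map fun a => (x : ℂ) - a).prod‖ ≤ ‖(s.map fun a => (x : ℂ) + y * Complex.I - a).prod‖ := by
    intro s
    induction s using Multiset.induction_on with
    | empty => intro _; simp
    | cons a s ih =>
      intro hr
      rw [Multiset.map_cons, Multiset.map_cons, Multiset.prod_cons, Multiset.prod_cons,
        norm_mul, norm_mul]
      refine mul_le_mul ?_ (ih fun r hr' => hr r (Multiset.mem_cons_of_mem hr'))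
        (norm_nonneg _) (norm_nonneg _)
      have ha : a.im = 0 := hr a (Multiset.mem_cons_self a s)
      have e1 : (x : ℂ) - a = ((x - a.re : ℝ) : ℂ) := by
        apply Complex.ext <;> simp [ha]
      have e2 : ((x : ℂ) + y * Complex.I - a).re = x - a.re := by simp
      rw [e1, Complex.norm_real, ← e2]
      exact Complex.abs_re_le_norm _
  refine key _ fun r hr => h r ?_
  exact (Polynomial.mem_roots hQ).mp hr

/-- the reduced polynomial is not real-rooted -/
theorem not_real_rooted : ¬ (∀ z : ℂ, 286 + 35038 * z + 958976 * z ^ 2 + 9240610 * z ^ 3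
    + 38111080 * z ^ 4 + 73942876 * z ^ 5 + 70179928 * z ^ 6 + 32657731 * z ^ 7
    + 7283070 * z ^ 8 + 750200 * z ^ 9 + 32780 * z ^ 10 + 385 * z ^ 11 = 0 → z.im = 0) := by
  intro h
  set Q : Polynomial ℂ := 286 + 35038 * Polynomial.X + 958976 * Polynomial.X ^ 2
    + 9240610 * Polynomial.X ^ 3 + 38111080 * Polynomial.X ^ 4 + 73942876 * Polynomial.X ^ 5
    + 70179928 * Polynomial.X ^ 6 + 32657731 * Polynomial.X ^ 7 + 7283070 * Polynomial.X ^ 8
    + 750200 * Polynomial.X ^ 9 + 32780 * Polynomial.X ^ 10 + 385 * Polynomial.X ^ 11 with hQ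
  have hev : ∀ z : ℂ, Q.eval z = 286 + 35038 * z + 958976 * z ^ 2 + 9240610 * z ^ 3
    + 38111080 * z ^ 4 + 73942876 * z ^ 5 + 70179928 * z ^ 6 + 32657731 * z ^ 7
    + 7283070 * z ^ 8 + 750200 * z ^ 9 + 32780 * z ^ 10 + 385 * z ^ 11 := by
    intro z
    simp [hQ]
  have hr := real_roots_ineq Q (fun z hz => h z (by rw [← hev]; exact hz)) (-10) 2
  have e1 : Q.eval (((-10 : ℝ)) : ℂ) = 3987296137506 := by
    rw [hev]; push_cast; norm_num
  have p1 : (-10 + 2 * Complex.I) ^ 1 = (-10) + (2) * Complex.I := by ring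
  have p2 : (-10 + 2 * Complex.I) ^ 2 = (96) + (-40) * Complex.I := by
    rw [pow_succ, p1]; linear_combination (2 * (2)) * Complex.I_sq
  have p3 : (-10 + 2 * Complex.I) ^ 3 = (-880) + (592) * Complex.I := by
    rw [pow_succ, p2]; linear_combination (2 * (-40)) * Complex.I_sq
  have p4 : (-10 + 2 * Complex.I) ^ 4 = (7616) + (-7680) * Complex.I := by
    rw [pow_succ, p3]; linear_combination (2 * (592)) * Complex.I_sq
  have p5 : (-10 + 2 * Complex.I) ^ 5 = (-60800) + (92032) * Complex.I := by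
    rw [pow_succ, p4]; linear_combination (2 * (-7680)) * Complex.I_sq
  have p6 : (-10 + 2 * Complex.I) ^ 6 = (423936) + (-1041920) * Complex.I := by
    rw [pow_succ, p5]; linear_combination (2 * (92032)) * Complex.I_sq
  have p7 : (-10 + 2 * Complex.I) ^ 7 = (-2155520) + (11267072) * Complex.I := by
    rw [pow_succ, p6]; linear_combination (2 * (-1041920)) * Complex.I_sq
  have p8 : (-10 + 2 * Complex.I) ^ 8 = (-978944) + (-116981760) * Complex.I := by
    rw [pow_succ, p7]; linear_combination (2 * (11267072)) * Complex.I_sq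
  have p9 : (-10 + 2 * Complex.I) ^ 9 = (243752960) + (1167859712) * Complex.I := by
    rw [pow_succ, p8]; linear_combination (2 * (-116981760)) * Complex.I_sq
  have p10 : (-10 + 2 * Complex.I) ^ 10 = (-4773249024) + (-11191091200) * Complex.I := by
    rw [pow_succ, p9]; linear_combination (2 * (1167859712)) * Complex.I_sq
  have p11 : (-10 + 2 * Complex.I) ^ 11 = (70114672640) + (102364413952) * Complex.I := by
    rw [pow_succ, p10]; linear_combination (2 * (-11191091200)) * Complex.I_sq
  have e2 : Q.eval (((-10 : ℝ) : ℂ) + ((2 : ℝ) : ℂ) * Complex.I)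
      = 1404691604370 - 1938675251620 * Complex.I := by
    rw [hev]
    push_cast
    linear_combination 35038 * p1 + 958976 * p2 + 9240610 * p3 + 38111080 * p4 + 73942876 * p5 + 70179928 * p6 + 32657731 * p7 + 7283070 * p8 + 750200 * p9 + 32780 * p10 + 385 * p11
  rw [e1, e2] at hr
  have h1 : ‖(3987296137506 : ℂ)‖ = 3987296137506 := by
    have : (3987296137506 : ℂ) = ((3987296137506 : ℝ) : ℂ) := by push_cast; rfl
    rw [this, Complex.norm_real, Real.norm_eq_abs, abs_of_pos (by norm_num)]
  have h2 : ‖(1404691604370 - 1938675251620 * Complex.I : ℂ)‖ ^ 2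
      = 1404691604370 ^ 2 + 1938675251620 ^ 2 := by
    rw [← Complex.normSq_eq_norm_sq, Complex.normSq_apply]
    simp
    norm_num
  rw [h1] at hr
  have h3 : (3987296137506 : ℝ) ^ 2 ≤ ‖(1404691604370 - 1938675251620 * Complex.I : ℂ)‖ ^ 2 :=
    pow_le_pow_left₀ (by norm_num) hr 2
  rw [h2] at h3
  norm_num at h3

end Pool.Agent.MPcdddd3
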