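import Mathlib
import Pool.Agent.Lib.MP_cdddd3_co.Jt

set_option autoImplicit false
set_option linter.unusedSimpArgs false

namespace Pool.Agent.MPcdddd3

open Finset

/-- the value of the Schur coefficient -/
noncomputable def val (τ : ℝ) : ℝ := 40320 * L τ (W (-τ) 8 * W (-τ) 8 - W (-τ) 7 * W (-τ) 9)

/-- explicit form -/
noncomputable def valx (τ w0 w1 w2 w3 w4 w5 w6 w7 w8 w9 : ℝ) : ℝ :=
  40320 * (dd τ 0 * ((w0*w8*(w8*w0)+w1*w7*(w7*w1)+w2*w6*(w6*w2)+w3*w5*(w5*w3)+w4*w4*(w4*w4)+w5*w3*(w3*w5)+w6*w2*(w2*w6)+w7*w1*(w1*w7)+w8*w0*(w0*w8)) - (w0*w7*(w8*w1)+w1*w6*(w7*w2)+w2*w5*(w6*w3)+w3*w4*(w5*w4)+w4*w3*(w4*w5)+w5*w2*(w3*w6)+w6*w1*(w2*w7)+w7*w0*(w1*w8)))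
    + dd τ 1 * ((w1*w7*(w8*w0)+w2*w6*(w7*w1)+w3*w5*(w6*w2)+w4*w4*(w5*w3)+w5*w3*(w4*w4)+w6*w2*(w3*w5)+w7*w1*(w2*w6)+w8*w0*(w1*w7)) - (w0*w7*(w9*w0)+w1*w6*(w8*w1)+w2*w5*(w7*w2)+w3*w4*(w6*w3)+w4*w3*(w5*w4)+w5*w2*(w4*w5)+w6*w1*(w3*w6)+w7*w0*(w2*w7)))
    + dd τ 2 * ((w2*w6*(w8*w0)+w3*w5*(w7*w1)+w4*w4*(w6*w2)+w5*w3*(w5*w3)+w6*w2*(w4*w4)+w7*w1*(w3*w5)+w8*w0*(w2*w6)) - (w1*w6*(w9*w0)+w2*w5*(w8*w1)+w3*w4*(w7*w2)+w4*w3*(w6*w3)+w5*w2*(w5*w4)+w6*w1*(w4*w5)+w7*w0*(w3*w6)))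
    + dd τ 3 * ((w3*w5*(w8*w0)+w4*w4*(w7*w1)+w5*w3*(w6*w2)+w6*w2*(w5*w3)+w7*w1*(w4*w4)+w8*w0*(w3*w5)) - (w2*w5*(w9*w0)+w3*w4*(w8*w1)+w4*w3*(w7*w2)+w5*w2*(w6*w3)+w6*w1*(w5*w4)+w7*w0*(w4*w5)))
    + dd τ 4 * ((w4*w4*(w8*w0)+w5*w3*(w7*w1)+w6*w2*(w6*w2)+w7*w1*(w5*w3)+w8*w0*(w4*w4)) - (w3*w4*(w9*w0)+w4*w3*(w8*w1)+w5*w2*(w7*w2)+w6*w1*(w6*w3)+w7*w0*(w5*w4)))
    + dd τ 5 * ((w5*w3*(w8*w0)+w6*w2*(w7*w1)+w7*w1*(w6*w2)+w8*w0*(w5*w3)) - (w4*w3*(w9*w0)+w5*w2*(w8*w1)+w6*w1*(w7*w2)+w7*w0*(w6*w3)))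
    + dd τ 6 * ((w6*w2*(w8*w0)+w7*w1*(w7*w1)+w8*w0*(w6*w2)) - (w5*w2*(w9*w0)+w6*w1*(w8*w1)+w7*w0*(w7*w2)))
    + dd τ 7 * ((w7*w1*(w8*w0)+w8*w0*(w7*w1)) - (w6*w1*(w9*w0)+w7*w0*(w8*w1)))
    + dd τ 8 * ((w8*w0*(w8*w0)) - (w7*w0*(w9*w0))))

theorem val_eq (τ : ℝ) : val τ = valx τ (w (-τ) 0) (w (-τ) 1) (w (-τ) 2) (w (-τ) 3) (w (-τ) 4)
    (w (-τ) 5) (w (-τ) 6) (w (-τ) 7) (w (-τ) 8) (w (-τ) 9) := by
  unfold val valx L
  simp only [sum_range_succ, sum_range_zero, zero_add, Polynomial.coeff_sub,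
    Polynomial.coeff_mul, Finset.Nat.sum_antidiagonal_eq_sum_range_succ_mk, coeff_W,
    Nat.reduceAdd, Nat.reduceSub, add_zero, Nat.sub_self, Nat.sub_zero, Nat.reduceLeDiff,
    if_true, if_false, mul_zero, zero_mul, zero_le, le_refl]

theorem val1 : val 1 = 0 := by
  rw [val_eq]
  simp only [valx, dd, w_zero, w1, w2, w3, w4, w5, w6, w7, w8, w9]
  norm_num

theorem val2 : val 2 = 0 := by
  rw [val_eq]
  simp only [valx, dd, w_zero, w1, w2, w3, w4, w5, w6, w7, w8, w9]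
  norm_num

theorem val3 : val 3 = 0 := by
  rw [val_eq]
  simp only [valx, dd, w_zero, w1, w2, w3, w4, w5, w6, w7, w8, w9]
  norm_num

theorem val4 : val 4 = 804722688000 := by
  rw [val_eq]
  simp only [valx, dd, w_zero, w1, w2, w3, w4, w5, w6, w7, w8, w9]
  norm_num

theorem val5 : val 5 = 82196674560000 := by
  rw [val_eq]
  simp only [valx, dd, w_zero, w1, w2, w3, w4, w5, w6, w7, w8, w9]
  norm_num

theorem val6 : val 6 = 2855960819712000 := by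
  rw [val_eq]
  simp only [valx, dd, w_zero, w1, w2, w3, w4, w5, w6, w7, w8, w9]
  norm_num

theorem val7 : val 7 = 53142788966400000 := by
  rw [val_eq]
  simp only [valx, dd, w_zero, w1, w2, w3, w4, w5, w6, w7, w8, w9]
  norm_num

theorem val8 : val 8 = 637256063220940800 := by
  rw [val_eq]
  simp only [valx, dd, w_zero, w1, w2, w3, w4, w5, w6, w7, w8, w9]
  norm_num

theorem val9 : val 9 = 5504027970760704000 := by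
  rw [val_eq]
  simp only [valx, dd, w_zero, w1, w2, w3, w4, w5, w6, w7, w8, w9]
  norm_num

theorem val10 : val 10 = 36894788996567040000 := by
  rw [val_eq]
  simp only [valx, dd, w_zero, w1, w2, w3, w4, w5, w6, w7, w8, w9]
  norm_num

theorem val11 : val 11 = 202268623275823104000 := by
  rw [val_eq]
  simp only [valx, dd, w_zero, w1, w2, w3, w4, w5, w6, w7, w8, w9]
  norm_num

theorem val12 : val 12 = 942045401564467200000 := by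
  rw [val_eq]
  simp only [valx, dd, w_zero, w1, w2, w3, w4, w5, w6, w7, w8, w9]
  norm_num

theorem val13 : val 13 = 3834320463414772531200 := by
  rw [val_eq]
  simp only [valx, dd, w_zero, w1, w2, w3, w4, w5, w6, w7, w8, w9]
  norm_num

theorem val14 : val 14 = 13936658502097723392000 := by
  rw [val_eq]
  simp only [valx, dd, w_zero, w1, w2, w3, w4, w5, w6, w7, w8, w9]
  norm_num

theorem val15 : val 15 = 46003559847447121920000 := by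
  rw [val_eq]
  simp only [valx, dd, w_zero, w1, w2, w3, w4, w5, w6, w7, w8, w9]
  norm_num

theorem val16 : val 16 = 139761164567828643840000 := by
  rw [val_eq]
  simp only [valx, dd, w_zero, w1, w2, w3, w4, w5, w6, w7, w8, w9]
  norm_num

end Pool.Agent.MPcdddd3
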